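import Mathlib

/-!
# Bootstrap percolation on Galton-Watson trees: definitions

All definitions follow the problem file MP_12274d_pr.
-/

namespace Pool.Agent.Lib.MP_12274d_pr

open MeasureTheory ProbabilityTheory
open scoped ENNReal

/-- One step of `r`-neighbour bootstrap percolation on the graph `G`: the infected vertices `A`
stay infected, and every vertex with at least `r` infected neighbours becomes infected. -/
def step {V : Type*} (G : SimpleGraph V) (r : ℕ) (A : Set V) : Set V :=
  A ∪ {v | (r : ℕ∞) ≤ (G.neighborSet v ∩ A).encard}

/-- The set of infected vertices after `n` steps, started from the set `A`. -/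
def infected {V : Type*} (G : SimpleGraph V) (r : ℕ) (A : Set V) : ℕ → Set V
  | 0 => A
  | n + 1 => step G r (infected G r A n)

/-- The initial set `A` percolates: every vertex is eventually infected. -/
def Percolates {V : Type*} (G : SimpleGraph V) (r : ℕ) (A : Set V) : Prop :=
  ∀ v, ∃ n, v ∈ infected G r A n

/-- The critical probability `p_c(G, r) = inf {p : P_p(G percolates) > 0}`.  Here
`setBernoulli Set.univ p` is Mathlib's law of the random subset of `V` which contains each vertex
independently with probability `p`. -/
noncomputable def critProb {V : Type*} (G : SimpleGraph V) (r : ℕ) : ℝ :=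
  sInf {p : ℝ | ∃ hp : p ∈ unitInterval,
    0 < setBernoulli (Set.univ : Set V) ⟨p, hp⟩ {A | Percolates G r A}}

/-- Ulam-Harris labelling.  `c u` is the number of children of the vertex with label `u`; the
children of `u` have the labels `i :: u` for `i < c u`, and the root has the label `[]`.
`InTree c v` says that the label `v` is the label of a vertex of the tree. -/
def InTree (c : List ℕ → ℕ) : List ℕ → Prop
  | [] => True
  | i :: u => i < c u ∧ InTree c u

/-- The tree with child numbers `c`, as a graph: two vertices are adjacent if and only if one of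
them is a child of the other. -/
def tree (c : List ℕ → ℕ) : SimpleGraph {v : List ℕ // InTree c v} where
  Adj u v := (∃ i, v.1 = i :: u.1) ∨ (∃ i, u.1 = i :: v.1)
  symm := ⟨fun u v h => by
    rcases h with h | h
    · exact Or.inr h
    · exact Or.inl h⟩
  loopless := ⟨fun u h => by
    rcases h with ⟨i, h⟩ | ⟨i, h⟩ <;> simpa using congrArg List.length h⟩

/-- The law of the child numbers of the Galton-Watson tree `T_ξ`, when `μ` is the law of `ξ`: the
child numbers of all labels are independent with law `μ`. -/
noncomputable def gwLaw (μ : ProbabilityMeasure ℕ) : Measure (List ℕ → ℕ) :=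
  Measure.infinitePi fun _ : List ℕ => (μ : Measure ℕ)

/-- `μ` is an offspring law with `P(ξ = 0) = 0` and `E ξ = b`. -/
def IsOffspring (μ : ProbabilityMeasure ℕ) (b : ℝ) : Prop :=
  (μ : Measure ℕ) {0} = 0 ∧ ∫⁻ k, (k : ℝ≥0∞) ∂(μ : Measure ℕ) = ENNReal.ofReal b

/-- `f_r^GW(b)`: the infimum of the (almost surely constant) critical probability `p_c(T_ξ, r)`
over all offspring laws with `P(ξ = 0) = 0` and mean `b`. -/
noncomputable def fGW (r : ℕ) (b : ℝ) : ℝ :=
  sInf {q : ℝ | ∃ μ : ProbabilityMeasure ℕ, IsOffspring μ b ∧
    ∀ᵐ c ∂(gwLaw μ), critProb (tree c) r = q}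

end Pool.Agent.Lib.MP_12274d_pr
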