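import Mathlib

/-!
# Lower tails of the binomial law

`L k j y` is the probability that a binomial variable with parameters `k` and `y` is `< j`.
-/

namespace Pool.Agent.Lib.MP_12274d_pr

open MeasureTheory ProbabilityTheory Set
open scoped ENNReal

/-- `P(Bin(k, y) < j)`, by recursion on `k`. -/
noncomputable def L : ℕ → ℕ → ℝ → ℝ
  | 0, 0, _ => 0
  | 0, _ + 1, _ => 1
  | _ + 1, 0, _ => 0
  | k + 1, j + 1, y => y * L k j y + (1 - y) * L k (j + 1) y

@[simp] lemma L_zero_right (k : ℕ) (y : ℝ) : L k 0 y = 0 := by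
  cases k <;> simp [L]

@[simp] lemma L_zero_succ (j : ℕ) (y : ℝ) : L 0 (j + 1) y = 1 := by simp [L]

lemma L_succ_succ (k j : ℕ) (y : ℝ) :
    L (k + 1) (j + 1) y = y * L k j y + (1 - y) * L k (j + 1) y := by simp [L]

lemma L_of_lt : ∀ (k j : ℕ) (y : ℝ), k < j → L k j y = 1 := by
  intro k
  induction k with
  | zero => intro j y h; obtain ⟨j, rfl⟩ := Nat.exists_eq_succ_of_ne_zero (by omega : j ≠ 0); simp
  | succ k ih =>
    intro j y h
    obtain ⟨j, rfl⟩ := Nat.exists_eq_succ_of_ne_zero (by omega : j ≠ 0)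
    rw [Nat.succ_eq_add_one, L_succ_succ, ih j y (by omega), ih (j + 1) y (by omega)]
    ring

lemma L_diff : ∀ (k j : ℕ) (y : ℝ),
    L k (j + 1) y - L k j y = (k.choose j : ℝ) * y ^ j * (1 - y) ^ (k - j) := by
  intro k
  induction k with
  | zero =>
    intro j y
    cases j with
    | zero => simp
    | succ j => simp
  | succ k ih =>
    intro j y
    cases j with
    | zero =>
      rw [L_succ_succ]
      have := ih 0 y
      simp only [L_zero_right, sub_zero, Nat.choose_zero_right, Nat.cast_one, pow_zero, mul_one,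
        one_mul, Nat.sub_zero, zero_add, mul_zero] at this ⊢
      rw [this, pow_succ]; ring
    | succ j =>
      rw [L_succ_succ, L_succ_succ]
      have h1 := ih j y
      have h2 := ih (j + 1) y
      have e : y * L k (j + 1) y + (1 - y) * L k (j + 1 + 1) y -
          (y * L k j y + (1 - y) * L k (j + 1) y) =
          y * (L k (j + 1) y - L k j y) + (1 - y) * (L k (j + 1 + 1) y - L k (j + 1) y) := by ring
      rw [e, h1, h2, Nat.choose_succ_succ]
      rcases Nat.lt_or_ge j k with hjk | hjk
      · have e1 : k - j = (k - (j + 1)) + 1 := by omega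
        have e2 : k + 1 - (j + 1) = (k - (j + 1)) + 1 := by omega
        rw [e1, e2]
        push_cast
        ring
      · have e0 : k.choose (j + 1) = 0 := Nat.choose_eq_zero_of_lt (by omega)
        have e2 : k + 1 - (j + 1) = k - j := by omega
        rw [e0, e2]
        push_cast
        ring

lemma L_nonneg : ∀ (k j : ℕ) (y : ℝ), 0 ≤ y → y ≤ 1 → 0 ≤ L k j y := by
  intro k
  induction k with
  | zero => intro j y _ _; cases j <;> simp
  | succ k ih =>
    intro j y h0 h1
    cases j with
    | zero => simp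
    | succ j =>
      rw [L_succ_succ]
      have := ih j y h0 h1
      have := ih (j + 1) y h0 h1
      have : 0 ≤ 1 - y := by linarith
      positivity

lemma L_mono_right (k j : ℕ) (y : ℝ) (h0 : 0 ≤ y) (h1 : y ≤ 1) : L k j y ≤ L k (j + 1) y := by
  have := L_diff k j y
  have h2 : 0 ≤ 1 - y := by linarith
  have : 0 ≤ (k.choose j : ℝ) * y ^ j * (1 - y) ^ (k - j) := by positivity
  linarith

lemma L_le_one : ∀ (k j : ℕ) (y : ℝ), 0 ≤ y → y ≤ 1 → L k j y ≤ 1 := by
  intro k
  induction k with
  | zero => intro j y _ _; cases j <;> simp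
  | succ k ih =>
    intro j y h0 h1
    cases j with
    | zero => simp
    | succ j =>
      rw [L_succ_succ]
      have := ih j y h0 h1
      have := ih (j + 1) y h0 h1
      nlinarith

lemma L_anti : ∀ (k j : ℕ) (x y : ℝ), 0 ≤ x → x ≤ y → y ≤ 1 → L k j y ≤ L k j x := by
  intro k
  induction k with
  | zero => intro j x y _ _ _; cases j <;> simp
  | succ k ih =>
    intro j x y h0 h1 h2
    cases j with
    | zero => simp
    | succ j =>
      rw [L_succ_succ, L_succ_succ]
      have a1 := ih j x y h0 h1 h2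
      have a2 := ih (j + 1) x y h0 h1 h2
      have a3 := L_mono_right k j x h0 (h1.trans h2)
      have a4 : 0 ≤ y := h0.trans h1
      have a5 : 0 ≤ 1 - y := by linarith
      calc y * L k j y + (1 - y) * L k (j + 1) y
          ≤ y * L k j x + (1 - y) * L k (j + 1) x := by gcongr
        _ ≤ x * L k j x + (1 - x) * L k (j + 1) x := by nlinarith

lemma L_continuous (k j : ℕ) : Continuous (L k j) := by
  induction k generalizing j with
  | zero => cases j <;> simp [L] <;> fun_prop
  | succ k ih =>
    cases j with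
    | zero => simp only [L]; fun_prop
    | succ j =>
      have := ih j
      have := ih (j + 1)
      simp only [L]
      fun_prop

/-- The polynomial `(1 - L k (s+2) y) / y^2` for `k = s + 1 + t`. -/
noncomputable def Vp (s t : ℕ) (y : ℝ) : ℝ :=
  ∑ m ∈ Finset.range t, ((s + 1 + m).choose (s + 1) : ℝ) * (y ^ s * (1 - y) ^ m)

lemma one_sub_L_eq (s t : ℕ) (y : ℝ) : 1 - L (s + 1 + t) (s + 2) y = y ^ 2 * Vp s t y := by
  induction t with
  | zero => simp [Vp, L_of_lt (s + 1) (s + 2) y (by omega)]
  | succ t ih =>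
    have h1 : s + 1 + (t + 1) = (s + 1 + t) + 1 := by ring
    have h2 := L_diff (s + 1 + t) (s + 1) y
    have h3 : s + 1 + t - (s + 1) = t := by omega
    rw [h3] at h2
    rw [h1, L_succ_succ, Vp, Finset.sum_range_succ, mul_add]
    have h4 : (y ^ 2 * ∑ m ∈ Finset.range t, ((s + 1 + m).choose (s + 1) : ℝ) * (y ^ s * (1 - y) ^ m))
        = 1 - L (s + 1 + t) (s + 2) y := by rw [ih, Vp]
    rw [h4]
    have h5 : L (s + 1 + t) (s + 1 + 1) y = L (s + 1 + t) (s + 2) y := rfl
    have h6 : y ^ 2 * (((s + 1 + t).choose (s + 1) : ℝ) * (y ^ s * (1 - y) ^ t)) =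
        y * (((s + 1 + t).choose (s + 1) : ℝ) * y ^ (s + 1) * (1 - y) ^ t) := by ring
    rw [h6, ← h2, h5]
    ring

/-- The Beta integral for natural exponents. -/
lemma beta_nat (a b : ℕ) : ∫ x in (0 : ℝ)..1, x ^ a * (1 - x) ^ b =
    (a.factorial * b.factorial : ℝ) / (a + b + 1).factorial := by
  induction b generalizing a with
  | zero =>
    simp only [pow_zero, mul_one, integral_pow, one_pow, Nat.factorial_zero, Nat.cast_one,
      add_zero, Nat.factorial_succ]
    have : (a.factorial : ℝ) ≠ 0 := by positivity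
    push_cast
    field_simp
    simp
  | succ b ih =>
    have e : ∀ x : ℝ, x ^ a * (1 - x) ^ (b + 1) = x ^ a * (1 - x) ^ b - x ^ (a + 1) * (1 - x) ^ b := by
      intro x; ring
    simp_rw [e]
    rw [intervalIntegral.integral_sub (by apply Continuous.intervalIntegrable; fun_prop)
      (by apply Continuous.intervalIntegrable; fun_prop), ih, ih]
    have h1 : a + 1 + b + 1 = (a + b + 1) + 1 := by ring
    have h2 : a + (b + 1) + 1 = (a + b + 1) + 1 := by ring
    rw [h1, h2, Nat.factorial_succ (a + b + 1), Nat.factorial_succ a, Nat.factorial_succ b]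
    have : ((a + b + 1).factorial : ℝ) ≠ 0 := by positivity
    have : ((a : ℝ) + b + 1 + 1) ≠ 0 := by positivity
    push_cast
    field_simp
    ring

lemma choose_beta (s m : ℕ) :
    ((s + 1 + m).choose (s + 1) : ℝ) * ((s.factorial * m.factorial : ℝ) / (s + m + 1).factorial)
      = 1 / (s + 1) := by
  have h' : ((s + 1 + m).choose (s + 1) : ℝ) * ((s + 1).factorial * m.factorial) =
      (s + 1 + m).factorial := by
    have h2 := Nat.choose_mul_factorial_mul_factorial (Nat.le_add_right (s + 1) m)
    have h3 : s + 1 + m - (s + 1) = m := by omega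
    have : ((s + 1 + m).choose (s + 1) * (s + 1).factorial * m.factorial) =
      (s + 1 + m).factorial := by rw [h3] at h2; exact h2
    rw [← this]
    push_cast
    ring
  have e : s + m + 1 = s + 1 + m := by ring
  rw [e, ← h', Nat.factorial_succ s]
  have h1 : (0 : ℝ) < ((s + 1 + m).choose (s + 1) : ℝ) := by
    exact_mod_cast Nat.choose_pos (by omega)
  have h2 : (0 : ℝ) < s.factorial := by positivity
  have h3 : (0 : ℝ) < m.factorial := by positivity
  push_cast
  field_simp

lemma integral_Vp (s t : ℕ) : ∫ y in (0 : ℝ)..1, Vp s t y = t / (s + 1) := by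
  unfold Vp
  rw [intervalIntegral.integral_finsetSum]
  · simp_rw [intervalIntegral.integral_const_mul, beta_nat, choose_beta]
    simp [div_eq_mul_inv]
  · intro i _
    apply Continuous.intervalIntegrable
    fun_prop

lemma Vp_continuous (s t : ℕ) : Continuous (Vp s t) := by
  unfold Vp
  fun_prop

lemma Vp_nonneg (s t : ℕ) (y : ℝ) (h0 : 0 ≤ y) (h1 : y ≤ 1) : 0 ≤ Vp s t y := by
  unfold Vp
  apply Finset.sum_nonneg
  intro i _
  have : 0 ≤ 1 - y := by linarith
  positivity

/-- the key identity: for `k ≥ s + 1`, `∫_0^1 P(Bin(k,y) ≥ s+2) / y^2 dy = (k - (s+1))/(s+1)`. -/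
lemma lintegral_tail (s t : ℕ) :
    ∫⁻ y in Ioc (0 : ℝ) 1, ENNReal.ofReal ((1 - L (s + 1 + t) (s + 2) y) / y ^ 2) =
      ENNReal.ofReal (t / (s + 1)) := by
  have h1 : ∫⁻ y in Ioc (0 : ℝ) 1, ENNReal.ofReal ((1 - L (s + 1 + t) (s + 2) y) / y ^ 2) =
      ∫⁻ y in Ioc (0 : ℝ) 1, ENNReal.ofReal (Vp s t y) := by
    apply setLIntegral_congr_fun measurableSet_Ioc
    intro y hy
    have hy0 : y ≠ 0 := hy.1.ne'
    simp only [one_sub_L_eq]
    congr 1
    field_simp
  rw [h1, ← integral_Vp, intervalIntegral.integral_of_le zero_le_one,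
    ofReal_integral_eq_lintegral_ofReal]
  · exact ((Vp_continuous s t).continuousOn.integrableOn_Icc).mono_set Ioc_subset_Icc_self
  · filter_upwards [ae_restrict_mem measurableSet_Ioc] with y hy
    exact Vp_nonneg s t y hy.1.le hy.2

/-- `∫_p^1 (y-p)/((1-p) y^2) dy = -log p/(1-p) - 1`. -/
lemma integral_ramp (p : ℝ) (hp0 : 0 < p) (hp1 : p < 1) :
    ∫ y in p..1, (y - p) / ((1 - p) * y ^ 2) = -Real.log p / (1 - p) - 1 := by
  have hne : (1 - p) ≠ 0 := by linarith
  have hpos : ∀ y ∈ uIcc p 1, 0 < y := by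
    intro y hy
    rw [uIcc_of_le hp1.le] at hy
    exact hp0.trans_le hy.1
  have hder : ∀ y ∈ uIcc p 1, HasDerivAt (fun y => (Real.log y + p / y) / (1 - p))
      ((y - p) / ((1 - p) * y ^ 2)) y := by
    intro y hy
    have hy0 := (hpos y hy).ne'
    have h1 := Real.hasDerivAt_log hy0
    have h2 := (hasDerivAt_inv hy0).const_mul p
    have h3 := (h1.add h2).div_const (1 - p)
    have e : (y - p) / ((1 - p) * y ^ 2) = (y⁻¹ + p * (-(y ^ 2)⁻¹)) / (1 - p) := by
      field_simp
      ring
    rw [e]
    exact h3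
  rw [intervalIntegral.integral_eq_sub_of_hasDerivAt hder]
  · simp only [Real.log_one, div_one, zero_add]
    rw [div_self hp0.ne']
    field_simp
    ring
  · apply ContinuousOn.intervalIntegrable
    apply ContinuousOn.div (by fun_prop) (by fun_prop)
    intro y hy
    have := hpos y hy
    positivity

/-- Part A of the proof: if `p ≤ exp(-b/(r-1))`, the recursion for the probability of a healthy
fort has a fixed point. Here `r = s + 2`. -/
theorem exists_fixed_of_ge (s : ℕ) (μ : ProbabilityMeasure ℕ)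
    (hμ : ∀ᵐ k ∂(μ : Measure ℕ), s + 2 ≤ k) (b : ℝ)
    (hb : ∫⁻ k, (k : ℝ≥0∞) ∂(μ : Measure ℕ) = ENNReal.ofReal b) (hb0 : 0 < b)
    (p : ℝ) (hp0 : 0 < p) (hp1 : p < 1) (hp : p ≤ Real.exp (-b / (s + 1))) :
    ∃ y, 0 ≤ y ∧ y < 1 ∧ 1 - y ≤ (1 - p) * ∫ k, L k (s + 2) y ∂(μ : Measure ℕ) := by
  by_contra hcon
  push Not at hcon
  have hs : (0 : ℝ) < s + 1 := by positivity
  -- integrability
  have hint : ∀ y : ℝ, 0 ≤ y → y ≤ 1 → Integrable (fun k => L k (s + 2) y) (μ : Measure ℕ) := by
    intro y h0 h1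
    refine Integrable.of_bound (C := 1) (by fun_prop) ?_
    filter_upwards with k
    rw [Real.norm_eq_abs, abs_le]
    constructor
    · linarith [L_nonneg k (s + 2) y h0 h1]
    · exact L_le_one k (s + 2) y h0 h1
  -- lower bound of the tail
  have hlow : ∀ y : ℝ, 0 < y → y ≤ 1 → (y - p) / (1 - p) ≤ ∫ k, (1 - L k (s + 2) y) ∂(μ : Measure ℕ) := by
    intro y h0 h1
    rw [integral_sub (integrable_const _) (hint y h0.le h1)]
    simp only [integral_const, probReal_univ, smul_eq_mul, mul_one]
    have h1p : 0 < 1 - p := by linarith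
    rcases lt_or_eq_of_le h1 with h1 | h1
    · have h2 := hcon y h0.le h1
      rw [div_le_iff₀ h1p]
      nlinarith
    · subst h1
      rw [div_self h1p.ne']
      have : ∫ k, L k (s + 2) 1 ∂(μ : Measure ℕ) = 0 := by
        apply integral_eq_zero_of_ae
        filter_upwards [hμ] with k hk
        obtain ⟨t, rfl⟩ := Nat.exists_eq_add_of_le (show s + 1 ≤ k by omega)
        have ht : t ≠ 0 := by omega
        obtain ⟨t, rfl⟩ := Nat.exists_eq_succ_of_ne_zero ht
        have h3 := one_sub_L_eq s (t + 1) 1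
        have h4 : Vp s (t + 1) 1 = 1 := by
          simp [Vp, Finset.sum_range_succ']
        rw [h4] at h3
        simp only [Nat.succ_eq_add_one, Pi.zero_apply]
        linarith
      rw [this]; norm_num
  -- Tonelli
  have hT : ∫⁻ y in Ioc (0 : ℝ) 1, ∫⁻ k, ENNReal.ofReal ((1 - L k (s + 2) y) / y ^ 2) ∂(μ : Measure ℕ)
      = ∫⁻ k, ENNReal.ofReal ((k - (s + 1)) / (s + 1)) ∂(μ : Measure ℕ) := by
    rw [lintegral_lintegral_swap]
    · apply lintegral_congr_ae
      filter_upwards [hμ] with k hk
      obtain ⟨t, rfl⟩ := Nat.exists_eq_add_of_le (show s + 1 ≤ k by omega)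
      rw [lintegral_tail]
      congr 2
      push_cast
      ring
    · apply AEMeasurable.ennreal_ofReal
      apply Measurable.aemeasurable
      have : Measurable (fun q : ℝ × ℕ => L q.2 (s + 2) q.1) := by
        apply measurable_from_prod_countable_left
        intro k
        exact (L_continuous k (s + 2)).measurable
      fun_prop
  have hR : ∫⁻ k, ENNReal.ofReal ((k - (s + 1)) / (s + 1)) ∂(μ : Measure ℕ) =
      ENNReal.ofReal (b / (s + 1) - 1) := by
    have h1 : ∫⁻ k, (ENNReal.ofReal (((k : ℝ) - (s + 1)) / (s + 1)) + 1) ∂(μ : Measure ℕ) =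
        ENNReal.ofReal (b / (s + 1)) := by
      have : ∫⁻ k, (ENNReal.ofReal (((k : ℝ) - (s + 1)) / (s + 1)) + 1) ∂(μ : Measure ℕ) =
          ∫⁻ k, (ENNReal.ofReal (1 / (s + 1)) * (k : ℝ≥0∞)) ∂(μ : Measure ℕ) := by
        apply lintegral_congr_ae
        filter_upwards [hμ] with k hk
        have hk' : ((s : ℝ) + 1) ≤ k := by exact_mod_cast (show s + 1 ≤ k by omega)
        rw [← ENNReal.ofReal_one, ← ENNReal.ofReal_add (by apply div_nonneg <;> linarith) zero_le_one,
          ← ENNReal.ofReal_natCast k, ← ENNReal.ofReal_mul (by positivity)]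
        congr 1
        field_simp
        ring
      rw [this, lintegral_const_mul _ (by fun_prop), hb, ← ENNReal.ofReal_mul (by positivity)]
      congr 1
      ring
    rw [lintegral_add_right _ measurable_const] at h1
    simp only [lintegral_const, measure_univ, mul_one] at h1
    rw [ENNReal.ofReal_sub _ zero_le_one, ← h1, ENNReal.ofReal_one]
    simp
  -- lower bound of the left side
  have hL : ENNReal.ofReal (-Real.log p / (1 - p) - 1) ≤
      ∫⁻ y in Ioc (0 : ℝ) 1, ∫⁻ k, ENNReal.ofReal ((1 - L k (s + 2) y) / y ^ 2) ∂(μ : Measure ℕ) := by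
    rw [← integral_ramp p hp0 hp1, intervalIntegral.integral_of_le hp1.le]
    refine (ofReal_integral_eq_lintegral_ofReal ?_ ?_).le.trans ?_
    · rw [← IntegrableOn, ← intervalIntegrable_iff_integrableOn_Ioc_of_le hp1.le]
      apply ContinuousOn.intervalIntegrable
      rw [uIcc_of_le hp1.le]
      apply ContinuousOn.div (by fun_prop) (by fun_prop)
      intro y hy
      have : 0 < y := hp0.trans_le hy.1
      have : 0 < 1 - p := by linarith
      positivity
    · filter_upwards [ae_restrict_mem measurableSet_Ioc] with y hy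
      have : 0 < 1 - p := by linarith
      have : 0 < y - p := by linarith [hy.1]
      simp only [Pi.zero_apply]
      positivity
    · refine (setLIntegral_mono' measurableSet_Ioc ?_).trans
        (lintegral_mono_set (Ioc_subset_Ioc_left hp0.le))
      intro y hy
      have hy0 : 0 < y := hp0.trans hy.1
      have h2 := hlow y hy0 hy.2
      have h3 : ∫⁻ k, ENNReal.ofReal ((1 - L k (s + 2) y) / y ^ 2) ∂(μ : Measure ℕ) =
          ENNReal.ofReal (∫ k, ((1 - L k (s + 2) y) / y ^ 2) ∂(μ : Measure ℕ)) := by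
        rw [ofReal_integral_eq_lintegral_ofReal]
        · exact ((integrable_const _).sub (hint y hy0.le hy.2)).div_const _
        · filter_upwards with k
          have := L_le_one k (s + 2) y hy0.le hy.2
          simp only [Pi.zero_apply]
          apply div_nonneg <;> [linarith; positivity]
      rw [h3]
      apply ENNReal.ofReal_le_ofReal
      rw [integral_div, ← div_div]
      gcongr
  rw [hT, hR] at hL
  have h1p : 0 < 1 - p := by linarith
  have hlogp : Real.log p < 0 := Real.log_neg hp0 hp1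
  -- `-log p/(1-p) - 1 > 0`
  have hpos : 0 < -Real.log p / (1 - p) - 1 := by
    have h5 := Real.log_lt_sub_one_of_pos hp0 hp1.ne
    rw [sub_pos, lt_div_iff₀ h1p]
    linarith
  have h6 : -Real.log p / (1 - p) - 1 ≤ b / (s + 1) - 1 := by
    rw [ENNReal.ofReal_le_ofReal_iff'] at hL
    rcases hL with h | h
    · exact h
    · linarith
  have h7 : -Real.log p ≤ (1 - p) * (b / (s + 1)) := by
    have : -Real.log p / (1 - p) ≤ b / (s + 1) := by linarith
    rw [div_le_iff₀ h1p] at this
    linarith
  have h8 : (1 - p) * (b / (s + 1)) < b / (s + 1) := by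
    have : 0 < b / ((s : ℝ) + 1) := by positivity
    nlinarith
  have h9 : Real.log p ≤ -b / (s + 1) := by
    have := Real.log_le_log hp0 hp
    rwa [Real.log_exp] at this
  have h10 : -b / ((s : ℝ) + 1) = -(b / (s + 1)) := by ring
  rw [h10] at h9
  linarith

/-- Part A in general: no assumption on the support. -/
theorem exists_fixed (s : ℕ) (μ : ProbabilityMeasure ℕ) (b : ℝ)
    (hb : ∫⁻ k, (k : ℝ≥0∞) ∂(μ : Measure ℕ) = ENNReal.ofReal b) (hb0 : 0 < b)
    (p : ℝ) (hp0 : 0 < p) (hp1 : p < 1) (hp : p ≤ Real.exp (-b / (s + 1))) :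
    ∃ x, 0 < x ∧ x ≤ 1 ∧ x ≤ (1 - p) * ∫ k, L k (s + 2) (1 - x) ∂(μ : Measure ℕ) := by
  by_cases hμ : ∀ᵐ k ∂(μ : Measure ℕ), s + 2 ≤ k
  · obtain ⟨y, h0, h1, h2⟩ := exists_fixed_of_ge s μ hμ b hb hb0 p hp0 hp1 hp
    refine ⟨1 - y, by linarith, by linarith, ?_⟩
    simpa using h2
  · have hq : 0 < (μ : Measure ℕ).real {k | k < s + 2} := by
      rw [measureReal_def, ENNReal.toReal_pos_iff]
      refine ⟨?_, measure_lt_top _ _⟩
      rw [pos_iff_ne_zero]
      intro h
      apply hμ
      rw [ae_iff]
      convert h using 3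
      simp
    set q := (μ : Measure ℕ).real {k | k < s + 2} with hqdef
    have hq1 : q ≤ 1 := measureReal_le_one
    refine ⟨(1 - p) * q, mul_pos (by linarith) hq, by nlinarith, ?_⟩
    have h1p : 0 ≤ 1 - p := by linarith
    apply mul_le_mul_of_nonneg_left _ h1p
    set y := 1 - (1 - p) * q with hy
    have hy0 : 0 ≤ y := by nlinarith
    have hy1 : y ≤ 1 := by nlinarith
    rw [hqdef, ← integral_indicator_one (MeasurableSet.of_discrete)]
    apply integral_mono
    · exact (integrable_const (1 : ℝ)).indicator MeasurableSet.of_discrete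
    · refine Integrable.of_bound (C := 1) (by fun_prop) ?_
      filter_upwards with k
      rw [Real.norm_eq_abs, abs_le]
      constructor
      · linarith [L_nonneg k (s + 2) y hy0 hy1]
      · exact L_le_one k (s + 2) y hy0 hy1
    · intro k
      by_cases hk : k < s + 2
      · simp [indicator, hk, L_of_lt k (s + 2) y hk]
      · simp [indicator, hk, L_nonneg k (s + 2) y hy0 hy1]

end Pool.Agent.Lib.MP_12274d_pr
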