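import Pool.Agent.Lib.MP_12274d_pr.Tree
import Pool.Agent.Lib.MP_12274d_pr.Tail

/-!
# Probability on trees: root decomposition and the recursion
-/

namespace Pool.Agent.Lib.MP_12274d_pr

open MeasureTheory ProbabilityTheory Set
open scoped ENNReal

section Root

variable {S : Type*} [MeasurableSpace S] (ν : Measure S) [IsProbabilityMeasure ν]

/-- product law on marks of labels -/
noncomputable def listPi : Measure (List ℕ → S) := Measure.infinitePi fun _ : List ℕ => ν

instance : IsProbabilityMeasure (listPi ν) := by unfold listPi; infer_instance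

lemma iIndepFun_coord : iIndepFun (fun (v : List ℕ) (ω : List ℕ → S) => ω v) (listPi ν) := by
  unfold listPi
  exact iIndepFun_infinitePi (X := fun _ x => x) (fun _ => measurable_id)

lemma indepFun_root_rest : IndepFun (fun ω : List ℕ → S => ω [])
    (fun (ω : List ℕ → S) (p : ℕ × List ℕ) => ω (p.2 ++ [p.1])) (listPi ν) := by
  have h := iIndepFun_coord ν
  have h2 := indep_iSup_of_disjoint (m := fun v : List ℕ =>
    MeasurableSpace.comap (fun ω : List ℕ → S => ω v) inferInstance)
    (fun v => (measurable_pi_apply v).comap_le) h
    (S := {[]}) (T := {v | v ≠ []}) (by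
      rw [Set.disjoint_left]; intro x hx; simpa using hx)
  refine indep_of_indep_of_le_left (indep_of_indep_of_le_right h2 ?_) ?_
  · rw [MeasurableSpace.pi, MeasurableSpace.comap_iSup]
    refine iSup_le fun p => ?_
    rw [MeasurableSpace.comap_comp]
    exact le_iSup₂_of_le (p.2 ++ [p.1]) (by simp) le_rfl
  · exact le_iSup₂_of_le [] (by simp) le_rfl

/-- root decomposition -/
def Dec (ω : List ℕ → S) : S × (ℕ → List ℕ → S) := (ω [], fun i => shift [i] ω)

lemma measurable_shift (v : List ℕ) : Measurable (shift v : (List ℕ → S) → (List ℕ → S)) := by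
  unfold shift
  fun_prop

lemma measurable_Dec : Measurable (Dec : (List ℕ → S) → _) := by
  unfold Dec
  have := fun i : ℕ => measurable_shift (S := S) [i]
  fun_prop

lemma map_Dec : (listPi ν).map Dec = ν.prod (Measure.infinitePi fun _ : ℕ => listPi ν) := by
  have m1 : Measurable (fun ω : List ℕ → S => ω []) := by fun_prop
  have m2 : Measurable (fun (ω : List ℕ → S) (p : ℕ × List ℕ) => ω (p.2 ++ [p.1])) := by fun_prop
  have h := (indepFun_iff_map_prod_eq_prod_map_map m1.aemeasurable m2.aemeasurable).mp
    (indepFun_root_rest ν)
  have h1 : (listPi ν).map (fun ω => ω []) = ν := by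
    unfold listPi
    exact Measure.infinitePi_map_eval (fun _ : List ℕ => ν) []
  have h2 : (listPi ν).map (fun (ω : List ℕ → S) (p : ℕ × List ℕ) => ω (p.2 ++ [p.1])) =
      Measure.infinitePi (fun _ : ℕ × List ℕ => ν) := by
    unfold listPi
    refine Measure.map_infinitePi_infinitePi_of_inj (P := fun _ : List ℕ => ν)
      (f := fun p : ℕ × List ℕ => p.2 ++ [p.1]) ?_
    rintro ⟨i, u⟩ ⟨j, v⟩ hij
    simp only at hij
    have := List.append_inj' hij rfl
    simp_all
  rw [h1, h2] at h
  have h3 : (Dec : (List ℕ → S) → _) = (Prod.map id (MeasurableEquiv.curry ℕ (List ℕ) S)) ∘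
      (fun ω => (ω [], fun (p : ℕ × List ℕ) => ω (p.2 ++ [p.1]))) := by
    funext ω
    simp [Dec, Prod.map]
    rfl
  rw [h3, ← Measure.map_map (by fun_prop) (by fun_prop), h, ← Measure.map_prod_map _ _ (by fun_prop) (by fun_prop),
    Measure.map_id, Measure.infinitePi_map_curry (fun (_ : ℕ) (_ : List ℕ) => ν)]
  rfl

end Root

section Bin

variable {X : Type*} [MeasurableSpace X] (ρ : Measure X) [IsProbabilityMeasure ρ]

open Classical in
lemma measurableSet_card_lt (A : Set X) (hA : MeasurableSet A) (k j : ℕ) :
    MeasurableSet {g : ℕ → X | ((Finset.range k).filter (fun i => g i ∉ A)).card < j} := by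
  have : Measurable (fun g : ℕ → X => ∑ i ∈ Finset.range k, if g i ∉ A then 1 else 0) := by
    refine Finset.measurable_sum _ fun i _ => ?_
    refine Measurable.ite ?_ measurable_const measurable_const
    exact (measurable_pi_apply (X := fun _ : ℕ => X) i) hA.compl
  have h2 : ∀ g : ℕ → X, ((Finset.range k).filter (fun i => g i ∉ A)).card =
      ∑ i ∈ Finset.range k, if g i ∉ A then 1 else 0 := by
    intro g
    rw [Finset.card_filter]
  simp_rw [h2]
  exact this measurableSet_Iio

open Classical in
/-- The number of failures among the first `k` coordinates is binomial. -/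
lemma prob_card_lt (A : Set X) (hA : MeasurableSet A) (k j : ℕ) :
    (Measure.infinitePi fun _ : ℕ => ρ).real
      {g : ℕ → X | ((Finset.range k).filter (fun i => g i ∉ A)).card < j} =
    L k j (ρ.real Aᶜ) := by
  induction k generalizing j with
  | zero =>
    cases j with
    | zero => simp
    | succ j => simp
  | succ k ih =>
    cases j with
    | zero => simp
    | succ j =>
      rw [L_succ_succ, ← ih j, ← ih (j + 1)]
      set Q := (Measure.infinitePi fun _ : ℕ => ρ) with hQ
      have hind : IndepFun (fun (g : ℕ → X) (i : ({k} : Finset ℕ)) => g i)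
          (fun (g : ℕ → X) (i : (Finset.range k)) => g i) Q :=
        iIndepFun.indepFun_finset {k} (Finset.range k) (by simp)
          (iIndepFun_infinitePi (X := fun _ x => x) (fun _ => measurable_id))
          (fun i => measurable_pi_apply i)
      have hcard : ∀ g : ℕ → X, ((Finset.range (k + 1)).filter (fun i => g i ∉ A)).card =
          ((Finset.range k).filter (fun i => g i ∉ A)).card + if g k ∉ A then 1 else 0 := by
        intro g
        rw [Finset.card_filter, Finset.sum_range_succ, Finset.card_filter]
      -- independence for rectangles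
      have hmul : ∀ (B : Set X) (_ : MeasurableSet B) (m : ℕ),
          Q.real ({g | g k ∈ B} ∩ {g | ((Finset.range k).filter (fun i => g i ∉ A)).card < m}) =
          ρ.real B * Q.real {g | ((Finset.range k).filter (fun i => g i ∉ A)).card < m} := by
        intro B hB m
        have h1 : {g : ℕ → X | g k ∈ B} =
            (fun (g : ℕ → X) (i : ({k} : Finset ℕ)) => g i) ⁻¹' {f | f ⟨k, by simp⟩ ∈ B} := by
          ext g; simp
        have h2 : {g : ℕ → X | ((Finset.range k).filter (fun i => g i ∉ A)).card < m} =
            (fun (g : ℕ → X) (i : (Finset.range k)) => g i) ⁻¹'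
              {f | (∑ i : (Finset.range k), if f i ∉ A then 1 else 0) < m} := by
          ext g
          simp only [mem_preimage, mem_ofPred_eq]
          rw [Finset.card_filter, ← Finset.sum_coe_sort]
        have hm1 : MeasurableSet {f : ({k} : Finset ℕ) → X | f ⟨k, by simp⟩ ∈ B} :=
          (measurable_pi_apply _) hB
        have hm2 : MeasurableSet {f : (Finset.range k) → X |
            (∑ i : (Finset.range k), if f i ∉ A then 1 else 0) < m} := by
          have : Measurable (fun f : (Finset.range k) → X =>
              (∑ i : (Finset.range k), if f i ∉ A then 1 else 0)) := by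
            refine Finset.measurable_sum _ fun i _ => ?_
            refine Measurable.ite ?_ measurable_const measurable_const
            exact (measurable_pi_apply (X := fun _ : (Finset.range k) => X) i) hA.compl
          exact this measurableSet_Iio
        have h3 := hind.measure_inter_preimage_eq_mul _ _ hm1 hm2
        rw [← h1, ← h2] at h3
        have h4 : Q {g : ℕ → X | g k ∈ B} = ρ B := by
          rw [hQ]
          have := Measure.infinitePi_map_eval (fun _ : ℕ => ρ) k
          conv_rhs => rw [← this]
          rw [Measure.map_apply (measurable_pi_apply k) hB]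
          rfl
        rw [measureReal_def, h3, h4, ENNReal.toReal_mul]
        rfl
      have hset : {g : ℕ → X | ((Finset.range (k + 1)).filter (fun i => g i ∉ A)).card < j + 1} =
          ({g | g k ∈ Aᶜ} ∩ {g | ((Finset.range k).filter (fun i => g i ∉ A)).card < j}) ∪
          ({g | g k ∈ A} ∩ {g | ((Finset.range k).filter (fun i => g i ∉ A)).card < j + 1}) := by
        ext g
        simp only [hcard, mem_ofPred_eq, mem_union, mem_inter_iff, mem_compl_iff]
        by_cases hg : g k ∈ A
        · simp [hg]
        · simp [hg]
      rw [hset, measureReal_union, hmul _ hA.compl, hmul _ hA]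
      · have : ρ.real A = 1 - ρ.real Aᶜ := by
          rw [probReal_compl_eq_one_sub hA]; ring
        rw [this]
      · rw [Set.disjoint_left]
        rintro g ⟨hg, _⟩ ⟨hg', _⟩
        exact hg hg'
      · exact ((measurable_pi_apply k) hA).inter (measurableSet_card_lt A hA k (j + 1))

end Bin

end Pool.Agent.Lib.MP_12274d_pr
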