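import Pool.Agent.Lib.MP_12274d_pr.Recursion

/-!
# From the joint law to the critical probability of almost every tree
-/

namespace Pool.Agent.Lib.MP_12274d_pr

open MeasureTheory ProbabilityTheory Set unitInterval
open scoped ENNReal

/-- the law of independent Bernoulli marks on an index set -/
noncomputable def bernPi (V : Type*) (q : unitInterval) : Measure (V → Prop) :=
  Measure.infinitePi fun _ : V => bern q

instance (V : Type*) (q : unitInterval) : IsProbabilityMeasure (bernPi V q) := by
  unfold bernPi; infer_instance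

instance (μ : ProbabilityMeasure ℕ) : IsProbabilityMeasure (gwLaw μ) := by
  unfold gwLaw; infer_instance

/-- separate the two kinds of marks -/
def Sep (ω : List ℕ → ℕ × Prop) : (List ℕ → ℕ) × (List ℕ → Prop) :=
  (fun v => (ω v).1, fun v => (ω v).2)

lemma measurable_Sep : Measurable Sep := by unfold Sep; fun_prop

lemma univ_mem_squareCylinders {ι : Type*} {α : ι → Type*} [∀ i, MeasurableSpace (α i)] :
    (univ : Set (∀ i, α i)) ∈ squareCylinders (fun i => {s : Set (α i) | MeasurableSet s}) := by
  refine ⟨∅, fun _ => univ, by simp, by simp⟩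

noncomputable def spanC {ι : Type*} {α : ι → Type*} [∀ i, MeasurableSpace (α i)]
    (ρ : Measure (∀ i, α i)) [IsProbabilityMeasure ρ] :
    ρ.FiniteSpanningSetsIn (squareCylinders (fun i => {s : Set (α i) | MeasurableSet s})) where
  set := fun _ => univ
  set_mem := fun _ => univ_mem_squareCylinders
  finite := fun _ => measure_lt_top _ _
  spanning := iUnion_const _

lemma map_Sep (μ : ProbabilityMeasure ℕ) (q : unitInterval) :
    (markLaw μ q).map Sep = (gwLaw μ).prod (bernPi (List ℕ) q) := by
  classical
  symm
  refine Measure.prod_eq_generateFrom generateFrom_squareCylinders generateFrom_squareCylinders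
    (isPiSystem_squareCylinders (fun _ => MeasurableSpace.isPiSystem_measurableSet) (by simp))
    (isPiSystem_squareCylinders (fun _ => MeasurableSpace.isPiSystem_measurableSet) (by simp))
    (spanC _) (spanC _) ?_
  rintro _ ⟨s, t, ht, rfl⟩ _ ⟨s', t', ht', rfl⟩
  have hm : MeasurableSet ((s : Set (List ℕ)).pi t) := by
    refine MeasurableSet.pi s.countable_toSet fun i _ => MeasurableSet.of_discrete
  have hm' : MeasurableSet ((s' : Set (List ℕ)).pi t') := by
    refine MeasurableSet.pi s'.countable_toSet fun i _ => MeasurableSet.of_discrete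
  rw [Measure.map_apply measurable_Sep (hm.prod hm')]
  have e : Sep ⁻¹' ((s : Set (List ℕ)).pi t ×ˢ (s' : Set (List ℕ)).pi t') =
      ((s ∪ s' : Finset (List ℕ)) : Set (List ℕ)).pi (fun v =>
        (if v ∈ s then t v else univ) ×ˢ (if v ∈ s' then t' v else univ)) := by
    ext ω
    simp only [Sep, mem_preimage, mem_prod, Set.mem_pi, Finset.coe_union, mem_union,
      SetLike.mem_coe]
    constructor
    · rintro ⟨h1, h2⟩ v _
      constructor
      · split_ifs with h
        · exact h1 v h
        · trivial
      · split_ifs with h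
        · exact h2 v h
        · trivial
    · intro h
      constructor
      · intro v hv
        have := (h v (Or.inl hv)).1
        simpa [hv] using this
      · intro v hv
        have := (h v (Or.inr hv)).2
        simpa [hv] using this
  rw [e, markLaw, listPi, Measure.infinitePi_pi _ (fun i _ => MeasurableSet.of_discrete)]
  simp_rw [mark, Measure.prod_prod]
  rw [Finset.prod_mul_distrib, gwLaw, bernPi, Measure.infinitePi_pi _ (fun i _ => MeasurableSet.of_discrete),
    Measure.infinitePi_pi _ (fun i _ => MeasurableSet.of_discrete)]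
  congr 1
  · rw [← Finset.prod_subset (Finset.subset_union_left (s₁ := s) (s₂ := s'))]
    · refine Finset.prod_congr rfl fun v hv => by simp [hv]
    · intro v _ hv
      simp [hv]
  · rw [← Finset.prod_subset (Finset.subset_union_right (s₁ := s) (s₂ := s'))]
    · refine Finset.prod_congr rfl fun v hv => by simp [hv]
    · intro v _ hv
      simp [hv]

lemma bern_ext (ρ : Measure Prop) [IsProbabilityMeasure ρ] (q : unitInterval)
    (h : ρ {False} = ENNReal.ofReal (1 - q)) : ρ = bern q := by
  have h2 : ∀ ρ' : Measure Prop, IsProbabilityMeasure ρ' → ρ' {True} = 1 - ρ' {False} := by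
    intro ρ' _
    rw [← prob_compl_eq_one_sub (measurableSet_singleton _)]
    congr 1
    ext b
    by_cases hb : b <;> simp [hb]
  refine Measure.ext_of_singleton fun b => ?_
  by_cases hb : b
  · have : ({b} : Set Prop) = {True} := by simp [hb]
    rw [this, h2 ρ inferInstance, h2 (bern q) inferInstance, h, bern_false]
  · have : ({b} : Set Prop) = {False} := by simp [hb]
    rw [this, h, bern_false]

section Meas

variable {V : Type*} [Countable V] (G : SimpleGraph V) (r : ℕ)

lemma measurableSet_infected (n : ℕ) (v : V) : MeasurableSet {A : Set V | v ∈ infected G r A n} := by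
  induction n generalizing v with
  | zero =>
    have := measurable_set_mem v (measurableSet_singleton True)
    convert this using 1
    ext A
    simp [infected]
  | succ n ih =>
    have : {A : Set V | v ∈ infected G r A (n + 1)} = {A : Set V | v ∈ infected G r A n} ∪
        ⋃ F : Finset V, ⋃ _ : F.card = r ∧ ∀ w ∈ F, G.Adj v w,
          ⋂ w ∈ F, {A : Set V | w ∈ infected G r A n} := by
      ext A
      simp only [infected, step, mem_union, mem_ofPred_eq, mem_iUnion, mem_iInter]
      refine or_congr Iff.rfl ?_
      constructor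
      · intro h
        obtain ⟨S, hS, hcard⟩ := Set.exists_subset_encard_eq h
        have hfin : S.Finite := Set.finite_of_encard_eq_coe hcard
        refine ⟨hfin.toFinset, ⟨?_, ?_⟩, ?_⟩
        · rw [hfin.encard_eq_coe_toFinset_card] at hcard
          exact_mod_cast hcard
        · intro w hw
          exact (hS (hfin.mem_toFinset.mp hw)).1
        · intro w hw
          exact (hS (hfin.mem_toFinset.mp hw)).2
      · rintro ⟨F, ⟨hF1, hF2⟩, hF3⟩
        have h5 : (r : ℕ∞) = (F : Set V).encard := by
          rw [Set.encard_coe_eq_coe_finsetCard, hF1]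
        rw [h5]
        apply Set.encard_le_encard
        intro w hw
        exact ⟨hF2 w hw, hF3 w hw⟩
    rw [this]
    refine (ih v).union (MeasurableSet.iUnion fun F => MeasurableSet.iUnion fun _ => ?_)
    exact Finset.measurableSet_biInter F fun w _ => ih w

lemma measurableSet_Percolates : MeasurableSet {A : Set V | Percolates G r A} := by
  have : {A : Set V | Percolates G r A} = ⋂ v, ⋃ n, {A : Set V | v ∈ infected G r A n} := by
    ext A; simp [Percolates]
  rw [this]
  exact MeasurableSet.iInter fun v => MeasurableSet.iUnion fun n => measurableSet_infected G r n v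

omit [Countable V] in
lemma measurable_setOf : Measurable (fun f : V → Prop => {i | f i}) := by
  rw [measurable_set_iff]
  intro a
  exact measurable_pi_apply a

omit [Countable V] in
lemma setBer_eq (q : unitInterval) (E : Set (Set V)) :
    setBernoulli (univ : Set V) q E = bernPi V q {f | {i | f i} ∈ E} := by
  rw [setBernoulli_apply']
  have : (fun i : V => toNNReal q • Measure.dirac (i ∈ (univ : Set V)) +
      toNNReal (σ q) • Measure.dirac False) = fun _ : V => bern q := by
    funext i
    simp [bern]
  rw [this]
  rfl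

/-- Monotonicity of the percolation probability in the parameter. -/
lemma setBer_mono {q q' : unitInterval} (hqq : q ≤ q') :
    setBernoulli (univ : Set V) q {A | Percolates G r A} ≤
      setBernoulli (univ : Set V) q' {A | Percolates G r A} := by
  rcases eq_or_lt_of_le (show (q : ℝ) ≤ 1 from q.2.2) with h1 | h1
  · have hq1 : q = q' := by
      apply Subtype.ext
      have : (q : ℝ) ≤ q' := hqq
      have := q'.2.2
      linarith
    rw [hq1]
  · have hq' : (q : ℝ) ≤ q' := hqq
    have hs : ((q' : ℝ) - q) / (1 - q) ∈ unitInterval := by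
      have h2 : 0 < 1 - (q : ℝ) := by linarith
      refine ⟨by apply div_nonneg <;> linarith, ?_⟩
      rw [div_le_one h2]
      linarith [q'.2.2]
    set s : unitInterval := ⟨_, hs⟩ with hsd
    have hsv : (s : ℝ) = ((q' : ℝ) - q) / (1 - q) := rfl
    have hprod : (1 - (q : ℝ)) * (1 - s) = 1 - q' := by
      have h2 : 1 - (q : ℝ) ≠ 0 := by linarith
      rw [hsv]
      field_simp
      ring
    set Q : Measure (V → Prop × Prop) :=
      Measure.infinitePi fun _ : V => (bern q).prod (bern s) with hQ
    have e1 : Q.map (fun f v => (f v).1) = bernPi V q := by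
      rw [hQ, Measure.infinitePi_map_pi (f := fun (_ : V) (x : Prop × Prop) => x.1) _
        (fun _ => measurable_fst)]
      unfold bernPi
      congr 1
      funext v
      rw [Measure.map_fst_prod]
      simp
    have e2 : Q.map (fun f v => (f v).1 ∨ (f v).2) = bernPi V q' := by
      have hm : Measurable (fun x : Prop × Prop => x.1 ∨ x.2) := Measurable.of_discrete
      rw [hQ, Measure.infinitePi_map_pi (f := fun (_ : V) (x : Prop × Prop) => x.1 ∨ x.2) _
        (fun _ => hm)]
      unfold bernPi
      congr 1
      funext v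
      have : IsProbabilityMeasure (Measure.map (fun x : Prop × Prop => x.1 ∨ x.2)
          ((bern q).prod (bern s))) := Measure.isProbabilityMeasure_map hm.aemeasurable
      apply bern_ext
      rw [Measure.map_apply hm (measurableSet_singleton _)]
      have e3 : (fun x : Prop × Prop => x.1 ∨ x.2) ⁻¹' {False} = {False} ×ˢ {False} := by
        ext ⟨a, b⟩
        simp
      rw [e3, Measure.prod_prod, bern_false, bern_false, ← ENNReal.ofReal_mul (by linarith), hprod]
    have hE : MeasurableSet {f : V → Prop | {i | f i} ∈ {A | Percolates G r A}} :=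
      measurable_setOf (measurableSet_Percolates G r)
    rw [setBer_eq, setBer_eq, ← e1, ← e2, Measure.map_apply (by fun_prop) hE,
      Measure.map_apply ?_ hE]
    · apply measure_mono
      intro f hf
      exact Percolates.mono (fun v hv => Or.inl hv) hf
    · have hm : Measurable (fun x : Prop × Prop => x.1 ∨ x.2) := Measurable.of_discrete
      rw [measurable_pi_iff]
      intro v
      exact hm.comp (measurable_pi_apply v)

omit [Countable V] in
lemma setBer_one_percolates : 0 < setBernoulli (univ : Set V) 1 {A | Percolates G r A} := by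
  rw [setBernoulli_one]
  have : (univ : Set V) ∈ {A | Percolates G r A} := fun v => ⟨0, mem_univ v⟩
  rw [Measure.dirac_apply_of_mem this]
  exact zero_lt_one

omit [Countable V] in
lemma critSet_nonempty : {p : ℝ | ∃ hp : p ∈ unitInterval,
    0 < setBernoulli (Set.univ : Set V) ⟨p, hp⟩ {A | Percolates G r A}}.Nonempty :=
  ⟨1, ⟨by norm_num, by norm_num⟩, setBer_one_percolates G r⟩

omit [Countable V] in
lemma critSet_bddBelow : BddBelow {p : ℝ | ∃ hp : p ∈ unitInterval,
    0 < setBernoulli (Set.univ : Set V) ⟨p, hp⟩ {A | Percolates G r A}} :=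
  ⟨0, fun _ hp => hp.1.1⟩

lemma le_critProb {q : unitInterval}
    (h : setBernoulli (univ : Set V) q {A | Percolates G r A} = 0) : (q : ℝ) ≤ critProb G r := by
  refine le_csInf (critSet_nonempty G r) ?_
  rintro p ⟨hp, hpos⟩
  by_contra hlt
  push Not at hlt
  have := setBer_mono G r (q := ⟨p, hp⟩) (q' := q) hlt.le
  rw [h] at this
  exact absurd this (not_le.mpr hpos)

omit [Countable V] in
lemma critProb_le {q : unitInterval}
    (h : 0 < setBernoulli (univ : Set V) q {A | Percolates G r A}) : critProb G r ≤ (q : ℝ) :=
  csInf_le (critSet_bddBelow G r) ⟨q.2, h⟩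

end Meas

section Quench

/-- restriction of the marks to the vertices of the tree -/
lemma setBer_tree (c : List ℕ → ℕ) (r : ℕ) (q : unitInterval) :
    setBernoulli (univ : Set {v // InTree c v}) q {A | Percolates (tree c) r A} =
      bernPi (List ℕ) q {η | Percolates (tree c) r {v | η v.1}} := by
  rw [setBer_eq]
  have h := Measure.map_infinitePi_infinitePi_of_inj (P := fun _ : List ℕ => bern q)
    (f := fun v : {v // InTree c v} => v.1) Subtype.val_injective
  have h' : (bernPi (List ℕ) q).map (fun η (v : {v // InTree c v}) => η v.1) =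
      bernPi {v // InTree c v} q := h
  have hm : MeasurableSet {f : {v // InTree c v} → Prop | {i | f i} ∈ {A | Percolates (tree c) r A}} :=
    measurable_setOf (measurableSet_Percolates _ r)
  rw [← h', Measure.map_apply (by fun_prop) hm]
  rfl

lemma ae_pos (μ : ProbabilityMeasure ℕ) (h : (μ : Measure ℕ) {0} = 0) :
    ∀ᵐ c ∂gwLaw μ, ∀ v, 1 ≤ c v := by
  rw [ae_all_iff]
  intro v
  have h1 : (gwLaw μ).map (fun c => c v) = μ := Measure.infinitePi_map_eval (fun _ : List ℕ => (μ : Measure ℕ)) v
  rw [ae_iff]
  have h2 : {c : List ℕ → ℕ | ¬ 1 ≤ c v} = (fun c : List ℕ → ℕ => c v) ⁻¹' {0} := by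
    ext c; simp
  rw [h2, ← Measure.map_apply (measurable_pi_apply v) (measurableSet_singleton _), h1, h]

lemma InTree_replicate (c : List ℕ → ℕ) (hc : ∀ v, 1 ≤ c v) (n : ℕ) :
    InTree c (List.replicate n 0) := by
  induction n with
  | zero => trivial
  | succ n ih => exact ⟨hc _, ih⟩

/-- If forts exist with positive probability, almost every tree does not percolate. -/
theorem ae_not_percolates (μ : ProbabilityMeasure ℕ) (h0 : (μ : Measure ℕ) {0} = 0)
    (h2 : 0 < (μ : Measure ℕ) (Ici 2)) (q : unitInterval) (hq : (q : ℝ) < 1) (r : ℕ) (hr : 2 ≤ r)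
    (h : 0 < (markLaw μ q).real {ω | Hinf r ω}) :
    ∀ᵐ c ∂gwLaw μ, setBernoulli (univ : Set {v // InTree c v}) q {A | Percolates (tree c) r A} = 0 := by
  have h3 := prob_NoTrial μ q hq r h h2
  set N : Set ((List ℕ → ℕ) × (List ℕ → Prop)) :=
    (fun x v => (x.1 v, x.2 v)) ⁻¹' NoTrial r with hN
  have hNm : MeasurableSet N := by
    have : Measurable (fun (x : (List ℕ → ℕ) × (List ℕ → Prop)) (v : List ℕ) => (x.1 v, x.2 v)) := by
      fun_prop
    exact this (measurableSet_NoTrial r)
  have h4 : ((gwLaw μ).prod (bernPi (List ℕ) q)) N = 0 := by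
    rw [← map_Sep, Measure.map_apply measurable_Sep hNm]
    exact h3
  have h5 := Measure.ae_ae_of_ae_prod (p := fun x => x ∉ N) (by
    rw [ae_iff]; simpa using h4)
  filter_upwards [h5, ae_pos μ h0] with c hc hcpos
  rw [setBer_tree]
  rw [ae_iff] at hc
  refine measure_mono_null ?_ hc
  intro η hη
  simp only [mem_ofPred_eq, not_not] at hη ⊢
  rw [hN]
  simp only [mem_preimage, NoTrial, mem_ofPred_eq]
  rintro n ⟨hn1, hn2⟩
  have hT : InTree c (1 :: List.replicate n 0) := by
    refine ⟨?_, InTree_replicate c hcpos n⟩
    have : 2 ≤ c (List.replicate n 0) := by simpa [shift] using hn1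
    omega
  refine not_percolates_of_blocked hr c η (1 :: List.replicate n 0) hT ?_ hη
  rw [shift_shift] at hn2
  simpa using hn2

/-- If forts have probability zero, almost every tree percolates almost surely. -/
theorem ae_percolates (μ : ProbabilityMeasure ℕ) (q : unitInterval) (r : ℕ)
    (h : (markLaw μ q).real {ω | Hinf r ω} = 0) :
    ∀ᵐ c ∂gwLaw μ, 0 < setBernoulli (univ : Set {v // InTree c v}) q {A | Percolates (tree c) r A} := by
  -- no label has the property `Hinf`
  have h1 : ∀ v : List ℕ, markLaw μ q {ω | Hinf r (shift v ω)} = 0 := by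
    intro v
    have e : (markLaw μ q).map (shift v) = markLaw μ q := by
      have := Measure.map_infinitePi_infinitePi_of_inj (P := fun _ : List ℕ => mark μ q)
        (f := fun w : List ℕ => w ++ v) (fun a b hab => List.append_cancel_right hab)
      exact this
    have e2 : markLaw μ q {ω | Hinf r ω} = 0 := by
      rw [measureReal_def, ENNReal.toReal_eq_zero_iff] at h
      rcases h with h | h
      · exact h
      · exact absurd h (measure_ne_top _ _)
    rw [← e, Measure.map_apply (measurable_shift v) (measurableSet_Hinf r)] at e2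
    exact e2
  set N : Set ((List ℕ → ℕ) × (List ℕ → Prop)) :=
    (fun x v => (x.1 v, x.2 v)) ⁻¹' (⋃ v : List ℕ, {ω | Hinf r (shift v ω)}) with hN
  have hUm : MeasurableSet (⋃ v : List ℕ, {ω : List ℕ → ℕ × Prop | Hinf r (shift v ω)}) :=
    MeasurableSet.iUnion fun v => measurable_shift v (measurableSet_Hinf r)
  have hNm : MeasurableSet N := by
    have : Measurable (fun (x : (List ℕ → ℕ) × (List ℕ → Prop)) (v : List ℕ) => (x.1 v, x.2 v)) := by
      fun_prop
    exact this hUm
  have h4 : ((gwLaw μ).prod (bernPi (List ℕ) q)) N = 0 := by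
    rw [← map_Sep, Measure.map_apply measurable_Sep hNm]
    exact measure_iUnion_null h1
  have h5 := Measure.ae_ae_of_ae_prod (p := fun x => x ∉ N) (by
    rw [ae_iff]; simpa using h4)
  filter_upwards [h5] with c hc
  rw [setBer_tree]
  have h6 : ∀ᵐ η ∂(bernPi (List ℕ) q), Percolates (tree c) r {v | η v.1} := by
    filter_upwards [hc] with η hη
    by_contra hcon
    obtain ⟨C, ⟨v, hv⟩, hC1, hC2⟩ := exists_fort_of_not_percolates hcon
    apply hη
    rw [hN]
    simp only [mem_preimage, mem_iUnion, mem_ofPred_eq]
    exact ⟨v.1, fun n => Hinf_of_fort c η C hC1 hC2 n v hv⟩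
  rw [pos_iff_ne_zero]
  intro hcon
  have h7 : bernPi (List ℕ) q {η | ¬ Percolates (tree c) r {v | η v.1}} = 0 := h6
  have h8 : bernPi (List ℕ) q univ ≤ 0 := by
    calc bernPi (List ℕ) q univ
        ≤ bernPi (List ℕ) q ({η | Percolates (tree c) r {v | η v.1}} ∪
          {η | ¬ Percolates (tree c) r {v | η v.1}}) := measure_mono (fun η _ => em _)
      _ ≤ _ := measure_union_le _ _
      _ = 0 := by rw [hcon, h7, add_zero]
  rw [measure_univ] at h8
  exact absurd h8 (by simp)

/-- the critical probability of the Galton-Watson tree is almost surely constant -/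
theorem critProb_ae_const (μ : ProbabilityMeasure ℕ) (h0 : (μ : Measure ℕ) {0} = 0)
    (h2 : 0 < (μ : Measure ℕ) (Ici 2)) (r : ℕ) (hr : 2 ≤ r) :
    ∃ p : ℝ, ∀ᵐ c ∂gwLaw μ, critProb (tree c) r = p := by
  set Z : Set unitInterval := {q | (markLaw μ q).real {ω | Hinf r ω} = 0} with hZ
  have hZ1 : (1 : unitInterval) ∈ Z := by
    rw [hZ, mem_ofPred_eq]
    have h3 : (markLaw μ 1).real {ω | H r 1 ω} = 0 := by
      rw [H_succ_eq, prob_Few μ 1 _ (measurableSet_H r 0) r]
      simp
    refine le_antisymm ?_ measureReal_nonneg
    rw [← h3]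
    exact measureReal_mono (fun ω hω => hω 1)
  set p : ℝ := sInf ((fun q : unitInterval => (q : ℝ)) '' Z) with hp
  have hbdd : BddBelow ((fun q : unitInterval => (q : ℝ)) '' Z) := ⟨0, by
    rintro _ ⟨q, _, rfl⟩; exact q.2.1⟩
  have hne : ((fun q : unitInterval => (q : ℝ)) '' Z).Nonempty := ⟨_, ⟨1, hZ1, rfl⟩⟩
  have hp0 : 0 ≤ p := le_csInf hne (by rintro _ ⟨q, _, rfl⟩; exact q.2.1)
  have hp1 : p ≤ 1 := csInf_le hbdd ⟨1, hZ1, rfl⟩
  refine ⟨p, ?_⟩
  -- upper bound
  have hup : ∀ᵐ c ∂gwLaw μ, ∀ n : ℕ, critProb (tree c) r ≤ p + 1 / (n + 1) := by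
    rw [ae_all_iff]
    intro n
    have : p < p + 1 / ((n : ℝ) + 1) := by
      have : 0 < 1 / ((n : ℝ) + 1) := by positivity
      linarith
    obtain ⟨_, ⟨q, hq, rfl⟩, hqn⟩ := exists_lt_of_csInf_lt hne this
    filter_upwards [ae_percolates μ q r hq] with c hc
    exact (critProb_le (tree c) r hc).trans hqn.le
  have hlow : ∀ᵐ c ∂gwLaw μ, ∀ n : ℕ, p - 1 / (n + 1) ≤ critProb (tree c) r := by
    rw [ae_all_iff]
    intro n
    have hn : 0 < 1 / ((n : ℝ) + 1) := by positivity
    by_cases hneg : p - 1 / ((n : ℝ) + 1) < 0
    · filter_upwards with c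
      refine hneg.le.trans ?_
      exact le_csInf (critSet_nonempty (tree c) r) (fun x hx => hx.1.1)
    · push Not at hneg
      set q : unitInterval := ⟨p - 1 / (n + 1), hneg, by linarith⟩ with hqd
      have hqv : (q : ℝ) = p - 1 / (n + 1) := rfl
      have hqlt : (q : ℝ) < p := by rw [hqv]; linarith
      have hqZ : q ∉ Z := by
        intro hcon
        have := csInf_le hbdd ⟨q, hcon, rfl⟩
        rw [← hp] at this
        exact absurd this (not_le.mpr hqlt)
      have hpos : 0 < (markLaw μ q).real {ω | Hinf r ω} := lt_of_le_of_ne measureReal_nonneg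
        (fun h => hqZ h.symm)
      filter_upwards [ae_not_percolates μ h0 h2 q (by linarith) r hr hpos] with c hc
      exact le_critProb (tree c) r hc
  filter_upwards [hup, hlow] with c h3 h4
  have ht : Filter.Tendsto (fun n : ℕ => 1 / ((n : ℝ) + 1)) Filter.atTop (nhds 0) :=
    tendsto_one_div_add_atTop_nhds_zero_nat
  apply le_antisymm
  · have := ge_of_tendsto' (ht.const_add p) h3
    simpa using this
  · have := le_of_tendsto' (ht.const_sub p) h4
    simpa using this

end Quench

end Pool.Agent.Lib.MP_12274d_pr
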