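import Pool.Agent.Lib.MP_12274d_pr.Prob

/-!
# The recursion for the probability of a healthy fort and the zero-one law
-/

namespace Pool.Agent.Lib.MP_12274d_pr

open MeasureTheory ProbabilityTheory Set unitInterval
open scoped ENNReal

/-- Bernoulli law on `Prop` -/
noncomputable def bern (q : unitInterval) : Measure Prop :=
  toNNReal q • Measure.dirac True + toNNReal (σ q) • Measure.dirac False

instance (q : unitInterval) : IsProbabilityMeasure (bern q) := by unfold bern; infer_instance

lemma bern_false (q : unitInterval) : bern q {False} = ENNReal.ofReal (1 - q) := by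
  have h : ((σ q : unitInterval) : ℝ) = 1 - q := rfl
  rw [← h]
  have h2 : bern q {False} = toNNReal q • (Measure.dirac True : Measure Prop) {False} +
      toNNReal (σ q) • (Measure.dirac False : Measure Prop) {False} := rfl
  rw [h2]
  simp
  rw [← ENNReal.ofReal_coe_nnreal]
  rfl

/-- joint law of child number and infection mark at a label -/
noncomputable def mark (μ : ProbabilityMeasure ℕ) (q : unitInterval) : Measure (ℕ × Prop) :=
  (μ : Measure ℕ).prod (bern q)

instance (μ : ProbabilityMeasure ℕ) (q : unitInterval) : IsProbabilityMeasure (mark μ q) := by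
  unfold mark; infer_instance

/-- joint law of all the marks -/
noncomputable def markLaw (μ : ProbabilityMeasure ℕ) (q : unitInterval) :
    Measure (List ℕ → ℕ × Prop) := listPi (mark μ q)

instance (μ : ProbabilityMeasure ℕ) (q : unitInterval) : IsProbabilityMeasure (markLaw μ q) := by
  unfold markLaw; infer_instance

open Classical in
/-- healthy root with fewer than `j` children outside `A` -/
def Few (A : Set (List ℕ → ℕ × Prop)) (j : ℕ) : Set (List ℕ → ℕ × Prop) :=
  {ω | ¬ (ω []).2 ∧ ((Finset.range (ω []).1).filter (fun i => shift [i] ω ∉ A)).card < j}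

open Classical in
lemma measurableSet_pairFew (A : Set (List ℕ → ℕ × Prop)) (hA : MeasurableSet A) (j : ℕ) :
    MeasurableSet {x : (ℕ × Prop) × (ℕ → List ℕ → ℕ × Prop) | ¬ x.1.2 ∧
      ((Finset.range x.1.1).filter (fun i => x.2 i ∉ A)).card < j} := by
  have : {x : (ℕ × Prop) × (ℕ → List ℕ → ℕ × Prop) | ¬ x.1.2 ∧
      ((Finset.range x.1.1).filter (fun i => x.2 i ∉ A)).card < j} =
      ⋃ k : ℕ, ({(k, False)} : Set (ℕ × Prop)) ×ˢ
        {g : ℕ → List ℕ → ℕ × Prop | ((Finset.range k).filter (fun i => g i ∉ A)).card < j} := by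
    ext ⟨⟨k, b⟩, g⟩
    simp only [mem_ofPred_eq, mem_iUnion, mem_prod, mem_singleton_iff, Prod.mk.injEq]
    constructor
    · rintro ⟨h1, h2⟩
      exact ⟨k, ⟨rfl, eq_false h1⟩, h2⟩
    · rintro ⟨k', ⟨h1, h2⟩, h3⟩
      subst h1
      subst h2
      exact ⟨not_false, h3⟩
  rw [this]
  refine MeasurableSet.iUnion fun k => ?_
  exact (measurableSet_singleton _).prod (measurableSet_card_lt A hA k j)

lemma measurableSet_Few (A : Set (List ℕ → ℕ × Prop)) (hA : MeasurableSet A) (j : ℕ) :
    MeasurableSet (Few A j) := by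
  classical
  have h := measurable_Dec (S := ℕ × Prop) (measurableSet_pairFew A hA j)
  exact h

lemma integrable_L (μ : ProbabilityMeasure ℕ) (j : ℕ) (y : ℝ) (h0 : 0 ≤ y) (h1 : y ≤ 1) :
    Integrable (fun k => L k j y) (μ : Measure ℕ) := by
  refine Integrable.of_bound (C := 1) (by fun_prop) ?_
  filter_upwards with k
  rw [Real.norm_eq_abs, abs_le]
  constructor
  · linarith [L_nonneg k j y h0 h1]
  · exact L_le_one k j y h0 h1

lemma prob_Few (μ : ProbabilityMeasure ℕ) (q : unitInterval) (A : Set (List ℕ → ℕ × Prop))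
    (hA : MeasurableSet A) (j : ℕ) :
    (markLaw μ q).real (Few A j) =
      (1 - q) * ∫ k, L k j (1 - (markLaw μ q).real A) ∂(μ : Measure ℕ) := by
  classical
  set P := markLaw μ q with hP
  set y := 1 - P.real A with hy
  have hy0 : 0 ≤ y := by rw [hy]; linarith [measureReal_le_one (μ := P) (s := A)]
  have hy1 : y ≤ 1 := by rw [hy]; linarith [measureReal_nonneg (μ := P) (s := A)]
  have hy' : P.real Aᶜ = y := by rw [probReal_compl_eq_one_sub hA]
  set T := {x : (ℕ × Prop) × (ℕ → List ℕ → ℕ × Prop) | ¬ x.1.2 ∧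
      ((Finset.range x.1.1).filter (fun i => x.2 i ∉ A)).card < j} with hT
  have hTm : MeasurableSet T := measurableSet_pairFew A hA j
  have h1 : P (Few A j) = ((mark μ q).prod (Measure.infinitePi fun _ : ℕ => P)) T := by
    rw [hP, markLaw, ← map_Dec, Measure.map_apply measurable_Dec hTm]
    rfl
  have h2 : P (Few A j) = ENNReal.ofReal ((1 - q) * ∫ k, L k j y ∂(μ : Measure ℕ)) := by
    rw [h1, Measure.prod_apply hTm]
    have h3 : ∀ s : ℕ × Prop, (Measure.infinitePi fun _ : ℕ => P) (Prod.mk s ⁻¹' T) =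
        ({False} : Set Prop).indicator (fun _ => ENNReal.ofReal (L s.1 j y)) s.2 := by
      rintro ⟨k, b⟩
      by_cases hb : b
      · have : (Prod.mk (k, b) ⁻¹' T) = ∅ := by
          ext g; simp [hT, hb]
        rw [this]
        simp [indicator, hb]
      · have : (Prod.mk (k, b) ⁻¹' T) =
            {g : ℕ → List ℕ → ℕ × Prop | ((Finset.range k).filter (fun i => g i ∉ A)).card < j} := by
          ext g; simp [hT, hb]
        rw [this]
        have h4 := prob_card_lt P A hA k j
        rw [hy'] at h4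
        simp only [indicator, mem_singleton_iff, eq_false hb, if_true]
        rw [← h4, ofReal_measureReal]
    simp_rw [h3]
    rw [mark, lintegral_prod _ (by
      apply Measurable.aemeasurable
      exact Measurable.of_discrete)]
    have h5 : ∀ k : ℕ, ∫⁻ b, ({False} : Set Prop).indicator
        (fun _ => ENNReal.ofReal (L k j y)) b ∂(bern q) =
        ENNReal.ofReal (1 - q) * ENNReal.ofReal (L k j y) := by
      intro k
      rw [lintegral_indicator (measurableSet_singleton _)]
      simp only [lintegral_const, Measure.restrict_apply MeasurableSet.univ, univ_inter]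
      rw [bern_false, mul_comm]
    simp_rw [h5]
    rw [lintegral_const_mul _ (by fun_prop), ENNReal.ofReal_mul (by linarith [q.2.2]),
      ofReal_integral_eq_lintegral_ofReal (integrable_L μ j y hy0 hy1)]
    filter_upwards with k
    exact L_nonneg k j y hy0 hy1
  rw [measureReal_def, h2, ENNReal.toReal_ofReal]
  apply mul_nonneg (by linarith [q.2.2])
  exact integral_nonneg fun k => L_nonneg k j y hy0 hy1

lemma H_succ_eq (r n : ℕ) : {ω | H r (n + 1) ω} = Few {ω | H r n ω} r := by
  classical
  ext ω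
  rfl

lemma measurableSet_H (r n : ℕ) : MeasurableSet {ω | H r n ω} := by
  induction n with
  | zero => simp [H]
  | succ n ih => rw [H_succ_eq]; exact measurableSet_Few _ ih _

lemma measurableSet_Hinf (r : ℕ) : MeasurableSet {ω | Hinf r ω} := by
  have : {ω | Hinf r ω} = ⋂ n, {ω | H r n ω} := by
    ext ω; simp [Hinf]
  rw [this]
  exact MeasurableSet.iInter fun n => measurableSet_H r n

/-- If the recursion has a fixed point `x`, then the probability of `H` stays above `x`. -/
lemma le_prob_H (μ : ProbabilityMeasure ℕ) (q : unitInterval) (r : ℕ) (x : ℝ) (hx0 : 0 ≤ x)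
    (hx1 : x ≤ 1) (hx : x ≤ (1 - q) * ∫ k, L k r (1 - x) ∂(μ : Measure ℕ)) (n : ℕ) :
    x ≤ (markLaw μ q).real {ω | H r n ω} := by
  induction n with
  | zero => simpa [H] using hx1
  | succ n ih =>
    rw [H_succ_eq, prob_Few μ q _ (measurableSet_H r n) r]
    refine hx.trans ?_
    have hq : 0 ≤ 1 - (q : ℝ) := by linarith [q.2.2]
    apply mul_le_mul_of_nonneg_left _ hq
    have h1 := measureReal_le_one (μ := markLaw μ q) (s := {ω | H r n ω})
    apply integral_mono (integrable_L _ _ _ (by linarith) (by linarith))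
      (integrable_L _ _ _ (by linarith) (by linarith))
    intro k
    exact L_anti k r _ _ (by linarith) (by linarith) (by linarith)

lemma le_prob_Hinf (μ : ProbabilityMeasure ℕ) (q : unitInterval) (r : ℕ) (x : ℝ) (hx0 : 0 ≤ x)
    (hx1 : x ≤ 1) (hx : x ≤ (1 - q) * ∫ k, L k r (1 - x) ∂(μ : Measure ℕ)) :
    x ≤ (markLaw μ q).real {ω | Hinf r ω} := by
  have : {ω | Hinf r ω} = ⋂ n, {ω | H r n ω} := by
    ext ω; simp [Hinf]
  rw [this]
  have hanti : Antitone (fun n => {ω | H r n ω}) := by
    intro n m hnm ω hω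
    exact H_anti r hnm ω hω
  have ht := tendsto_measure_iInter_atTop (μ := markLaw μ q)
    (fun n => (measurableSet_H r n).nullMeasurableSet) hanti ⟨0, measure_ne_top _ _⟩
  have ht2 := (ENNReal.tendsto_toReal (measure_ne_top (markLaw μ q) _)).comp ht
  exact ge_of_tendsto' ht2 fun n => le_prob_H μ q r x hx0 hx1 hx n

lemma Blocked_eq (r : ℕ) : {ω | Blocked r ω} = Few {ω | Hinf r ω} 1 := by
  classical
  ext ω
  simp only [mem_ofPred_eq, Blocked, Few, Nat.lt_one_iff, Finset.card_eq_zero,
    Finset.filter_eq_empty_iff, Finset.mem_range, not_not]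

lemma measurableSet_Blocked (r : ℕ) : MeasurableSet {ω | Blocked r ω} := by
  rw [Blocked_eq]; exact measurableSet_Few _ (measurableSet_Hinf r) _

lemma L_one_eq (k : ℕ) (y : ℝ) : L k 1 y = (1 - y) ^ k := by
  have := L_diff k 0 y
  simpa using this

lemma prob_Blocked_pos (μ : ProbabilityMeasure ℕ) (q : unitInterval) (hq : (q : ℝ) < 1) (r : ℕ)
    (h : 0 < (markLaw μ q).real {ω | Hinf r ω}) : 0 < (markLaw μ q).real {ω | Blocked r ω} := by
  rw [Blocked_eq, prob_Few μ q _ (measurableSet_Hinf r)]
  set a := (markLaw μ q).real {ω | Hinf r ω} with ha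
  have ha1 : a ≤ 1 := measureReal_le_one
  apply mul_pos (by linarith)
  rw [integral_pos_iff_support_of_nonneg]
  · have : (Function.support fun k => L k 1 (1 - a)) = univ := by
      ext k
      simp only [Function.mem_support, mem_univ, iff_true, L_one_eq]
      have : 0 < (1 - (1 - a)) := by linarith
      positivity
    rw [this]
    simp
  · intro k
    exact L_nonneg _ _ _ (by linarith) (by linarith)
  · exact integrable_L _ _ _ (by linarith) (by linarith)

/-- the trial at a vertex: it has at least two children, and the subtree at the second child is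
blocked -/
def Trial (r : ℕ) (ω : List ℕ → ℕ × Prop) : Prop := 2 ≤ (ω []).1 ∧ Blocked r (shift [1] ω)

def NoTrial (r : ℕ) : Set (List ℕ → ℕ × Prop) :=
  {ω | ∀ n : ℕ, ¬ Trial r (shift (List.replicate n 0) ω)}

lemma measurableSet_Trial (r : ℕ) : MeasurableSet {ω | Trial r ω} := by
  have h1 : MeasurableSet {ω : List ℕ → ℕ × Prop | 2 ≤ (ω []).1} := by
    have : Measurable (fun ω : List ℕ → ℕ × Prop => (ω []).1) := by fun_prop
    exact this measurableSet_Ici
  exact h1.inter (measurable_shift [1] (measurableSet_Blocked r))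

lemma measurableSet_NoTrial (r : ℕ) : MeasurableSet (NoTrial r) := by
  have : NoTrial r = ⋂ n : ℕ, (shift (List.replicate n 0)) ⁻¹' {ω | Trial r ω}ᶜ := by
    ext ω; simp [NoTrial]
  rw [this]
  exact MeasurableSet.iInter fun n => measurable_shift _ (measurableSet_Trial r).compl

lemma NoTrial_eq (r : ℕ) : NoTrial r = {ω | ¬ Trial r ω ∧ shift [0] ω ∈ NoTrial r} := by
  ext ω
  simp only [NoTrial, mem_ofPred_eq]
  constructor
  · intro h
    refine ⟨by simpa using h 0, fun n => ?_⟩
    rw [shift_shift]
    have := h (n + 1)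
    rwa [List.replicate_succ'] at this
  · rintro ⟨h0, h1⟩ n
    cases n with
    | zero => simpa using h0
    | succ n =>
      have := h1 n
      rw [shift_shift] at this
      rwa [List.replicate_succ']

lemma infinitePi_two {X : Type*} [MeasurableSpace X] (ρ : Measure X) [IsProbabilityMeasure ρ]
    (A B : Set X) (hA : MeasurableSet A) (hB : MeasurableSet B) :
    (Measure.infinitePi fun _ : ℕ => ρ) {g | g 1 ∈ A ∧ g 0 ∈ B} = ρ A * ρ B := by
  have := Measure.infinitePi_pi (fun _ : ℕ => ρ) (s := {0, 1}) (t := fun i => if i = 0 then B else A)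
    (by intro i _; by_cases hi : i = 0 <;> simp [hi, hA, hB])
  have h2 : {g : ℕ → X | g 1 ∈ A ∧ g 0 ∈ B} =
      (↑({0, 1} : Finset ℕ) : Set ℕ).pi (fun i => if i = 0 then B else A) := by
    ext g
    simp [Set.pi, and_comm]
  rw [h2, this]
  simp [mul_comm]

lemma infinitePi_one {X : Type*} [MeasurableSpace X] (ρ : Measure X) [IsProbabilityMeasure ρ]
    (B : Set X) (hB : MeasurableSet B) :
    (Measure.infinitePi fun _ : ℕ => ρ) {g | g 0 ∈ B} = ρ B := by
  have := infinitePi_two ρ univ B MeasurableSet.univ hB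
  simpa using this

/-- Almost surely, there is a trial which succeeds. -/
lemma prob_NoTrial (μ : ProbabilityMeasure ℕ) (q : unitInterval) (hq : (q : ℝ) < 1) (r : ℕ)
    (h : 0 < (markLaw μ q).real {ω | Hinf r ω}) (h2 : 0 < (μ : Measure ℕ) (Ici 2)) :
    markLaw μ q (NoTrial r) = 0 := by
  set P := markLaw μ q with hP
  have hκ : 0 < P {ω | Blocked r ω} := by
    have := prob_Blocked_pos μ q hq r h
    rw [measureReal_def, ENNReal.toReal_pos_iff] at this
    exact this.1
  set κ := P {ω | Blocked r ω} with hκd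
  have hκ1 : κ ≤ 1 := prob_le_one
  set T : Set ((ℕ × Prop) × (ℕ → List ℕ → ℕ × Prop)) :=
    {x | ¬ (2 ≤ x.1.1 ∧ Blocked r (x.2 1)) ∧ x.2 0 ∈ NoTrial r} with hT
  have hTm : MeasurableSet T := by
    have m1 : MeasurableSet {x : (ℕ × Prop) × (ℕ → List ℕ → ℕ × Prop) | 2 ≤ x.1.1} := by
      have : Measurable (fun x : (ℕ × Prop) × (ℕ → List ℕ → ℕ × Prop) => x.1.1) := by fun_prop
      exact this measurableSet_Ici
    have m2 : MeasurableSet {x : (ℕ × Prop) × (ℕ → List ℕ → ℕ × Prop) | Blocked r (x.2 1)} := by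
      have : Measurable (fun x : (ℕ × Prop) × (ℕ → List ℕ → ℕ × Prop) => x.2 1) := by fun_prop
      exact this (measurableSet_Blocked r)
    have m3 : MeasurableSet {x : (ℕ × Prop) × (ℕ → List ℕ → ℕ × Prop) | x.2 0 ∈ NoTrial r} := by
      have : Measurable (fun x : (ℕ × Prop) × (ℕ → List ℕ → ℕ × Prop) => x.2 0) := by fun_prop
      exact this (measurableSet_NoTrial r)
    exact (m1.inter m2).compl.inter m3
  have h1 : P (NoTrial r) = ((mark μ q).prod (Measure.infinitePi fun _ : ℕ => P)) T := by
    conv_lhs => rw [NoTrial_eq]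
    rw [hP, markLaw, ← map_Dec, Measure.map_apply measurable_Dec hTm]
    rfl
  set z := P (NoTrial r) with hz
  have hz1 : z ≤ 1 := prob_le_one
  have h3 : z ≤ ∫⁻ s, (Ici 2).indicator (fun _ => (1 - κ) * z) s +
      (Iio 2).indicator (fun _ => z) s ∂(μ : Measure ℕ) := by
    conv_lhs => rw [h1]
    rw [Measure.prod_apply hTm]
    have h4 : ∀ s : ℕ × Prop, (Measure.infinitePi fun _ : ℕ => P) (Prod.mk s ⁻¹' T) ≤
        (Ici 2).indicator (fun _ => (1 - κ) * z) s.1 + (Iio 2).indicator (fun _ => z) s.1 := by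
      rintro ⟨k, b⟩
      by_cases hk : 2 ≤ k
      · have e1 : (Prod.mk (k, b) ⁻¹' T) = {g | g 1 ∈ {ω | Blocked r ω}ᶜ ∧ g 0 ∈ NoTrial r} := by
          ext g
          simp [hT, hk]
        rw [e1, infinitePi_two P _ _ (measurableSet_Blocked r).compl (measurableSet_NoTrial r),
          prob_compl_eq_one_sub (measurableSet_Blocked r)]
        simp [indicator, hk, ← hκd, ← hz]
      · have e1 : (Prod.mk (k, b) ⁻¹' T) ⊆ {g | g 0 ∈ NoTrial r} := by
          intro g hg
          exact hg.2
        refine (measure_mono e1).trans ?_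
        rw [infinitePi_one P _ (measurableSet_NoTrial r)]
        have : k < 2 := by omega
        simp [indicator, hk, this, ← hz]
    refine (lintegral_mono h4).trans ?_
    rw [mark]
    rw [lintegral_prod _ (Measurable.of_discrete.aemeasurable)]
    simp
  rw [lintegral_add_left (Measurable.of_discrete), lintegral_indicator measurableSet_Ici,
    lintegral_indicator measurableSet_Iio, lintegral_const, lintegral_const] at h3
  simp only [Measure.restrict_apply MeasurableSet.univ, univ_inter] at h3
  set m := (μ : Measure ℕ) (Ici 2) with hm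
  have hm1 : m ≤ 1 := prob_le_one
  have hm2 : (μ : Measure ℕ) (Iio 2) = 1 - m := by
    rw [hm, ← prob_compl_eq_one_sub measurableSet_Ici]
    congr 1
    ext k; simp
  rw [hm2] at h3
  by_contra hne
  have hzpos : 0 < z := pos_iff_ne_zero.mpr hne
  -- move to reals
  have hzt : z ≠ ∞ := ne_top_of_le_ne_top ENNReal.one_ne_top hz1
  have hκt : κ ≠ ∞ := ne_top_of_le_ne_top ENNReal.one_ne_top hκ1
  have hmt : m ≠ ∞ := ne_top_of_le_ne_top ENNReal.one_ne_top hm1
  have h5 : z.toReal ≤ (1 - κ.toReal) * z.toReal * m.toReal + z.toReal * (1 - m.toReal) := by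
    have := ENNReal.toReal_mono (by
      apply ENNReal.add_ne_top.mpr
      constructor
      · exact ENNReal.mul_ne_top (ENNReal.mul_ne_top (by simp) hzt) hmt
      · exact ENNReal.mul_ne_top hzt (by simp)) h3
    rw [ENNReal.toReal_add (ENNReal.mul_ne_top (ENNReal.mul_ne_top (by simp) hzt) hmt)
      (ENNReal.mul_ne_top hzt (by simp)), ENNReal.toReal_mul, ENNReal.toReal_mul,
      ENNReal.toReal_mul, ENNReal.toReal_sub_of_le hκ1 ENNReal.one_ne_top,
      ENNReal.toReal_sub_of_le hm1 ENNReal.one_ne_top, ENNReal.toReal_one] at this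
    exact this
  have hz' : 0 < z.toReal := ENNReal.toReal_pos hne hzt
  have hκ' : 0 < κ.toReal := ENNReal.toReal_pos hκ.ne' hκt
  have hm' : 0 < m.toReal := ENNReal.toReal_pos h2.ne' hmt
  have : 0 < κ.toReal * z.toReal * m.toReal := by positivity
  nlinarith

end Pool.Agent.Lib.MP_12274d_pr
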