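import Pool.Agent.Lib.MP_12274d_pr.Defs

/-!
# Combinatorics of bootstrap percolation on trees
-/

namespace Pool.Agent.Lib.MP_12274d_pr

open MeasureTheory ProbabilityTheory
open scoped ENNReal

section Fort

variable {V : Type*} {G : SimpleGraph V} {r : ℕ} {A C : Set V}

lemma not_mem_infected_of_fort (hA : ∀ v ∈ C, v ∉ A)
    (hC : ∀ v ∈ C, (G.neighborSet v \ C).encard < r) (n : ℕ) :
    ∀ v ∈ C, v ∉ infected G r A n := by
  induction n with
  | zero => exact hA
  | succ n ih =>
    intro v hv h
    rcases h with h | h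
    · exact ih v hv h
    · have h1 : (G.neighborSet v ∩ infected G r A n) ⊆ G.neighborSet v \ C := by
        intro w hw
        exact ⟨hw.1, fun hwC => ih w hwC hw.2⟩
      have h2 := (Set.encard_le_encard h1).trans_lt (hC v hv)
      exact absurd h (not_le.mpr h2)

lemma not_percolates_of_fort (hA : ∀ v ∈ C, v ∉ A)
    (hC : ∀ v ∈ C, (G.neighborSet v \ C).encard < r) (hne : C.Nonempty) :
    ¬ Percolates G r A := by
  intro h
  obtain ⟨v, hv⟩ := hne
  obtain ⟨n, hn⟩ := h v
  exact not_mem_infected_of_fort hA hC n v hv hn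

lemma infected_mono_nat (n m : ℕ) (h : n ≤ m) : infected G r A n ⊆ infected G r A m := by
  induction m, h using Nat.le_induction with
  | base => exact subset_rfl
  | succ m _ ih => exact ih.trans Set.subset_union_left

lemma infected_mono_set {A B : Set V} (h : A ⊆ B) (n : ℕ) :
    infected G r A n ⊆ infected G r B n := by
  induction n with
  | zero => exact h
  | succ n ih =>
    intro v hv
    rcases hv with hv | hv
    · exact Or.inl (ih hv)
    · refine Or.inr ?_
      have : (r : ℕ∞) ≤ (G.neighborSet v ∩ infected G r A n).encard := hv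
      exact this.trans (Set.encard_le_encard (Set.inter_subset_inter_right _ ih))

lemma Percolates.mono {A B : Set V} (h : A ⊆ B) (hA : Percolates G r A) : Percolates G r B := by
  intro v
  obtain ⟨n, hn⟩ := hA v
  exact ⟨n, infected_mono_set h n hn⟩

/-- The set of vertices which are never infected is a fort. -/
lemma exists_fort_of_not_percolates (h : ¬ Percolates G r A) :
    ∃ C : Set V, C.Nonempty ∧ (∀ v ∈ C, v ∉ A) ∧
      (∀ v ∈ C, (G.neighborSet v \ C).encard < r) := by
  classical
  refine ⟨{v | ∀ n, v ∉ infected G r A n}, ?_, ?_, ?_⟩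
  · unfold Percolates at h
    push Not at h
    exact h
  · intro v hv
    exact hv 0
  · intro v hv
    by_contra hcon
    push Not at hcon
    obtain ⟨S, hS, hcard⟩ := Set.exists_subset_encard_eq hcon
    have hfin : S.Finite := Set.finite_of_encard_eq_coe hcard
    have h1 : ∀ w ∈ S, ∃ n, w ∈ infected G r A n := by
      intro w hw
      have := (hS hw).2
      simp only [Set.mem_ofPred_eq, not_forall, not_not] at this
      exact this
    choose! f hf using h1
    obtain ⟨N, hN⟩ := (hfin.image f).bddAbove
    have h2 : S ⊆ G.neighborSet v ∩ infected G r A N := by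
      intro w hw
      refine ⟨(hS hw).1, infected_mono_nat (f w) N ?_ (hf w hw)⟩
      exact hN (Set.mem_image_of_mem f hw)
    have h3 : (r : ℕ∞) ≤ (G.neighborSet v ∩ infected G r A N).encard := by
      rw [← hcard]
      exact Set.encard_le_encard h2
    exact hv (N + 1) (Or.inr h3)

end Fort

section Depth

/-- The subtree (of marks) at the vertex `v`. -/
def shift {S : Type*} (v : List ℕ) (ω : List ℕ → S) : List ℕ → S := fun w => ω (w ++ v)

@[simp] lemma shift_nil {S : Type*} (ω : List ℕ → S) : shift [] ω = ω := by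
  funext w; simp [shift]

lemma shift_shift {S : Type*} (u v : List ℕ) (ω : List ℕ → S) :
    shift u (shift v ω) = shift (u ++ v) ω := by
  funext w; simp [shift, List.append_assoc]

lemma shift_apply_nil {S : Type*} (v : List ℕ) (ω : List ℕ → S) : shift v ω [] = ω v := by
  simp [shift]

open Classical in
/-- The root is healthy to depth `n`: a recursively defined event. -/
def H (r : ℕ) : ℕ → (List ℕ → ℕ × Prop) → Prop
  | 0, _ => True
  | n + 1, ω => ¬ (ω []).2 ∧
      ((Finset.range (ω []).1).filter (fun i => ¬ H r n (shift [i] ω))).card < r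

/-- healthy to all depths -/
def Hinf (r : ℕ) (ω : List ℕ → ℕ × Prop) : Prop := ∀ n, H r n ω

lemma H_succ_imp (r n : ℕ) : ∀ ω, H r (n + 1) ω → H r n ω := by
  classical
  induction n with
  | zero => intro ω _; trivial
  | succ n ih =>
    intro ω h
    refine ⟨h.1, lt_of_le_of_lt (Finset.card_le_card ?_) h.2⟩
    intro i hi
    simp only [Finset.mem_filter] at hi ⊢
    exact ⟨hi.1, fun hn => hi.2 (ih _ hn)⟩

lemma H_anti (r : ℕ) {n m : ℕ} (hnm : n ≤ m) (ω) (h : H r m ω) : H r n ω := by
  induction m, hnm using Nat.le_induction with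
  | base => exact h
  | succ m _ ih => exact ih (H_succ_imp r m ω h)

open Classical in
lemma Hinf_iff (r : ℕ) (ω : List ℕ → ℕ × Prop) (h : Hinf r ω) :
    ¬ (ω []).2 ∧
      ((Finset.range (ω []).1).filter (fun i => ¬ Hinf r (shift [i] ω))).card < r := by
  refine ⟨(h 1).1, ?_⟩
  set F := (Finset.range (ω []).1).filter (fun i => ¬ Hinf r (shift [i] ω)) with hF
  have h1 : ∀ i ∈ F, ∃ n, ¬ H r n (shift [i] ω) := by
    intro i hi
    have := (Finset.mem_filter.mp hi).2
    unfold Hinf at this
    push Not at this
    exact this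
  choose! f hf using h1
  set N := F.sup f with hN
  refine lt_of_le_of_lt (Finset.card_le_card ?_) (h (N + 1)).2
  intro i hi
  refine Finset.mem_filter.mpr ⟨(Finset.mem_filter.mp hi).1, fun hcon => hf i hi ?_⟩
  exact H_anti r (Finset.le_sup hi) _ hcon

/-- `v` has a fort below it. -/
def Blocked (r : ℕ) (ω : List ℕ → ℕ × Prop) : Prop :=
  ¬ (ω []).2 ∧ ∀ i < (ω []).1, Hinf r (shift [i] ω)

inductive Good (r : ℕ) (ω : List ℕ → ℕ × Prop) (v₀ : List ℕ) : List ℕ → Prop
  | base : Good r ω v₀ v₀
  | step {u : List ℕ} {i : ℕ} : Good r ω v₀ u → Hinf r (shift (i :: u) ω) →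
      Good r ω v₀ (i :: u)

lemma not_percolates_of_blocked {r : ℕ} (hr : 2 ≤ r) (c : List ℕ → ℕ) (η : List ℕ → Prop)
    (v₀ : List ℕ) (hv₀ : InTree c v₀) (hb : Blocked r (shift v₀ (fun v => (c v, η v)))) :
    ¬ Percolates (tree c) r {v : {v // InTree c v} | η v.1} := by
  classical
  set ω : List ℕ → ℕ × Prop := fun v => (c v, η v) with hω
  refine not_percolates_of_fort (C := {v | Good r ω v₀ v.1}) ?_ ?_ ⟨⟨v₀, hv₀⟩, Good.base⟩
  · rintro ⟨v, hv⟩ hvC
    simp only [Set.mem_ofPred_eq] at hvC ⊢
    cases hvC with
    | base => exact hb.1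
    | step hu hi => exact (Hinf_iff r _ hi).1
  · rintro ⟨v, hv⟩ hvC
    -- push to lists
    have key : ∀ F : Finset (List ℕ), F.card < r →
        (∀ w : {v // InTree c v}, (tree c).Adj ⟨v, hv⟩ w → ¬ Good r ω v₀ w.1 → w.1 ∈ F) →
        ((tree c).neighborSet ⟨v, hv⟩ \ {v | Good r ω v₀ v.1}).encard < r := by
      intro F hF hsub
      have h1 : (Subtype.val '' ((tree c).neighborSet ⟨v, hv⟩ \ {v | Good r ω v₀ v.1})).encard
          ≤ (F : Set (List ℕ)).encard := by
        apply Set.encard_le_encard
        rintro _ ⟨w, hw, rfl⟩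
        exact hsub w hw.1 hw.2
      rw [Subtype.val_injective.encard_image] at h1
      refine h1.trans_lt ?_
      rw [Set.encard_coe_eq_coe_finsetCard]
      exact_mod_cast hF
    simp only [Set.mem_ofPred_eq] at hvC
    cases hvC with
    | base =>
      refine key {v₀.tail} (by simp; omega) ?_
      rintro ⟨w, hw⟩ hadj hng
      rcases hadj with ⟨i, hi⟩ | ⟨i, hi⟩
      · simp only at hi
        subst hi
        exfalso
        apply hng
        refine Good.step Good.base ?_
        have := hb.2 i (by simpa [shift, hω] using hw.1)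
        rw [shift_shift] at this
        simpa using this
      · simp only at hi
        simp [hi]
    | @step u i hu hi =>
      set v := i :: u with hvdef
      have hv' := Hinf_iff r _ hi
      refine key (((Finset.range ((shift v ω) []).1).filter
        (fun j => ¬ Hinf r (shift [j] (shift v ω)))).image (fun j => j :: v))
        (lt_of_le_of_lt Finset.card_image_le hv'.2) ?_
      rintro ⟨w, hw⟩ hadj hng
      rcases hadj with ⟨j, hj⟩ | ⟨j, hj⟩
      · simp only at hj
        subst hj
        simp only [Finset.mem_image, Finset.mem_filter, Finset.mem_range]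
        refine ⟨j, ⟨?_, ?_⟩, rfl⟩
        · simpa [shift, hω] using hw.1
        · intro hcon
          apply hng
          refine Good.step (Good.step hu hi) ?_
          rw [shift_shift] at hcon
          simpa using hcon
      · simp only at hj
        exfalso
        apply hng
        have : u = w := (List.cons.inj hj).2
        subst this
        exact hu

lemma Hinf_of_fort {r : ℕ} (c : List ℕ → ℕ) (η : List ℕ → Prop)
    (C : Set {v : List ℕ // InTree c v}) (hA : ∀ v ∈ C, ¬ η v.1)
    (hC : ∀ v ∈ C, ((tree c).neighborSet v \ C).encard < r) (n : ℕ) :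
    ∀ v ∈ C, H r n (shift v.1 (fun v => (c v, η v))) := by
  classical
  induction n with
  | zero => intro v _; trivial
  | succ n ih =>
    rintro ⟨v, hv⟩ hvC
    refine ⟨by simpa [shift] using hA _ hvC, ?_⟩
    have h1 := hC _ hvC
    set F := (Finset.range ((shift v (fun v => (c v, η v))) []).1).filter
      (fun i => ¬ H r n (shift [i] (shift v (fun v => (c v, η v))))) with hF
    have h2 : ((F : Set ℕ)).encard ≤ ((tree c).neighborSet ⟨v, hv⟩ \ C).encard := by
      have hinj : Function.Injective (fun w : {v // InTree c v} => w.1) := Subtype.val_injective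
      have hinj2 : Function.Injective (fun j : ℕ => j :: v) := fun a b h => (List.cons.inj h).1
      rw [← hinj.encard_image, ← hinj2.encard_image]
      apply Set.encard_le_encard
      rintro _ ⟨j, hj, rfl⟩
      have hj' : j ∈ F := hj
      rw [hF, Finset.mem_filter, Finset.mem_range] at hj'
      have hjc : j < c v := by simpa [shift] using hj'.1
      have hT : InTree c (j :: v) := ⟨hjc, hv⟩
      refine ⟨⟨j :: v, hT⟩, ⟨Or.inl ⟨j, rfl⟩, ?_⟩, rfl⟩
      intro hcon
      apply hj'.2
      rw [shift_shift]
      simpa using ih _ hcon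
    have h3 := h2.trans_lt h1
    rw [Set.encard_coe_eq_coe_finsetCard] at h3
    exact_mod_cast h3

end Depth

end Pool.Agent.Lib.MP_12274d_pr
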